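import Mathlib
import Pool.Agent.H47.SD.C

/-!
# Fourier transform of the number of blocks through a point (sum `0`)
-/

set_option autoImplicit false

open Finset

namespace Pool.Agent.H58.SD

open Pool.Agent.H47.SD
open scoped ZMod

/-- the gcd of `n` and a residue -/
def gd {n : ℕ} (a : ZMod n) : ℕ := Nat.gcd n a.val

/-- value of the Fourier transform of `b n κ` at a residue with gcd `e` (up to `(-1)^κ`) -/
def tm (n e κ : ℕ) : ℤ := (-1) ^ (κ / (n / e)) * (Nat.choose (e - 1) (κ / (n / e)) : ℤ)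

lemma orderOf_std {n : ℕ} [NeZero n] (a : ZMod n) :
    orderOf (ZMod.stdAddChar a : ℂ) = n / gd a := by
  have h1 : addOrderOf a = n / gd a := by
    have := ZMod.addOrderOf_coe a.val (NeZero.ne n)
    rwa [ZMod.natCast_zmod_val] at this
  rw [← h1]
  apply Nat.dvd_antisymm
  · rw [orderOf_dvd_iff_pow_eq_one, ← AddChar.map_nsmul_eq_pow, addOrderOf_nsmul_eq_zero,
      AddChar.map_zero_eq_one]
  · rw [addOrderOf_dvd_iff_nsmul_eq_zero]
    apply ZMod.injective_stdAddChar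
    rw [AddChar.map_nsmul_eq_pow, pow_orderOf_eq_one, AddChar.map_zero_eq_one]

lemma gd_pos {n : ℕ} [NeZero n] (a : ZMod n) : 0 < gd a := Nat.gcd_pos_of_pos_left _ (NeZero.pos n)

lemma gd_dvd {n : ℕ} (a : ZMod n) : gd a ∣ n := Nat.gcd_dvd_left _ _

lemma gd_neg {n : ℕ} [NeZero n] (a : ZMod n) : gd (-a) = gd a := by
  have h1 : addOrderOf a = n / gd a := by
    have := ZMod.addOrderOf_coe a.val (NeZero.ne n)
    rwa [ZMod.natCast_zmod_val] at this
  have h2 : addOrderOf (-a) = n / gd (-a) := by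
    have := ZMod.addOrderOf_coe (-a).val (NeZero.ne n)
    rwa [ZMod.natCast_zmod_val] at this
  rw [addOrderOf_neg, h1] at h2
  have h3 := Nat.div_div_self (gd_dvd a) (NeZero.ne n)
  have h4 := Nat.div_div_self (gd_dvd (-a)) (NeZero.ne n)
  rw [← h3, ← h4, h2]

lemma std_mul {n : ℕ} [NeZero n] (c t : ZMod n) :
    (ZMod.stdAddChar (c * t) : ℂ) = (ZMod.stdAddChar c : ℂ) ^ t.val := by
  rw [← AddChar.map_nsmul_eq_pow, nsmul_eq_mul, ZMod.natCast_zmod_val, mul_comm]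

lemma std_pow_n {n : ℕ} [NeZero n] (a : ZMod n) : (ZMod.stdAddChar a : ℂ) ^ n = 1 := by
  rw [← AddChar.map_nsmul_eq_pow, nsmul_eq_mul, ZMod.natCast_self, zero_mul,
    AddChar.map_zero_eq_one]

/-- Fourier transform of `b` -/
lemma dft_b {n : ℕ} [NeZero n] (κ : ℕ) (a : ZMod n) :
    ZMod.dft (fun z => (b n κ z : ℂ)) a = ((-1 : ℂ)) ^ κ * ((tm n (gd a) κ : ℤ) : ℂ) := by
  classical
  rw [ZMod.dft_apply]
  set ζ : ℂ := ZMod.stdAddChar (-a) with hζ
  have hζn : ζ ^ n = 1 := std_pow_n _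
  have h1 : ∀ t : ZMod n, ZMod.stdAddChar (-(t * a)) • (b n κ t : ℂ) = (b n κ t : ℂ) * ζ ^ t.val := by
    intro t
    rw [smul_eq_mul, mul_comm, show -(t * a) = (-a) * t by ring, std_mul]
  rw [Finset.sum_congr rfl (fun t _ => h1 t), sum_b hζn]
  have hprim : IsPrimitiveRoot ζ (orderOf ζ) := IsPrimitiveRoot.orderOf ζ
  have hord : orderOf ζ = n / gd a := by rw [hζ, orderOf_std, gd_neg]
  have hDn : orderOf ζ ∣ n := orderOf_dvd_of_pow_eq_one hζn
  have hg := gd_pos a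
  have hgn := gd_dvd a
  have : NeZero (gd a) := ⟨hg.ne'⟩
  have hD0 : 0 < orderOf ζ := Nat.pos_of_dvd_of_pos hDn (NeZero.pos n)
  have hn : n = orderOf ζ * gd a := by rw [hord, Nat.div_mul_cancel hgn]
  have h2 := esymm_key hD0 hn hprim (dvd_refl _) hDn κ
  rw [pow_orderOf_eq_one] at h2
  have h3 : ((-1 : ℂ) ^ κ) * (-1) ^ κ = 1 := by rw [← mul_pow]; simp
  have h4 : ∑ A ∈ (univ.erase (0 : ZMod (gd a))).powersetCard (κ / orderOf ζ),
      ∏ a ∈ A, (1 : ℂ) ^ a.val = (Nat.choose (gd a - 1) (κ / orderOf ζ) : ℂ) := by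
    simp only [one_pow, Finset.prod_const_one, Finset.sum_const, Finset.card_powersetCard, card_V0]
    simp
  rw [h4] at h2
  unfold tm
  push_cast
  rw [← hord, ← h2, ← mul_assoc, h3, one_mul]

/-- the alternating sum, expanded -/
lemma T_expand {n : ℕ} [NeZero n] (K : ℕ) (z w : ZMod n) :
    T n K z w = ∑ j ∈ range (K + 1), (-1) ^ j * (b n (K - j) (z - j * w) : ℤ) := by
  induction K generalizing z with
  | zero => simp [T]
  | succ K ih =>
    rw [T, ih, Finset.sum_range_succ' _ (K + 1)]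
    have h1 : ∀ j : ℕ, K + 1 - (j + 1) = K - j := by intro j; omega
    simp only [h1]
    have h2 : ∀ j : ℕ, z - ((j + 1 : ℕ) : ZMod n) * w = z - w - j * w := by
      intro j; push_cast; ring
    simp only [h2]
    rw [pow_zero, one_mul, Nat.sub_zero, Nat.cast_zero, zero_mul, sub_zero]
    have h3 : ∀ j ∈ range (K + 1), ((-1 : ℤ)) ^ (j + 1) * (b n (K - j) (z - w - j * w) : ℤ) =
      - ((-1) ^ j * (b n (K - j) (z - w - j * w) : ℤ)) := by
      intro j _; rw [pow_succ]; ring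
    rw [Finset.sum_congr rfl h3, Finset.sum_neg_distrib]
    ring

/-- the number of blocks through `y`, sum `0`, block size `K+1` -/
def ff (n K : ℕ) [NeZero n] (y : ZMod n) : ℤ := T n K (-y) y

/-- the (normalised) Fourier transform of `ff` at `h` -/
def Hh (n K : ℕ) [NeZero n] (h : ZMod n) : ℤ :=
  ∑ j ∈ range (K + 1), ∑ a ∈ univ.filter (fun a : ZMod n => ((j + 1 : ℕ) : ZMod n) * a = h),
    tm n (gd a) (K - j)

lemma b_inv {n : ℕ} [NeZero n] (κ : ℕ) (z : ZMod n) :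
    (b n κ z : ℂ) = (n : ℂ)⁻¹ * ∑ a : ZMod n, ZMod.stdAddChar (a * z) *
      (((-1 : ℂ)) ^ κ * ((tm n (gd a) κ : ℤ) : ℂ)) := by
  have h1 : (fun z => (b n κ z : ℂ)) z =
      (n : ℂ)⁻¹ • ∑ j : ZMod n, ZMod.stdAddChar (j * z) • ZMod.dft (fun z => (b n κ z : ℂ)) j := by
    rw [← ZMod.invDFT_apply, LinearEquiv.symm_apply_apply]
  simp only [dft_b, smul_eq_mul] at h1
  exact h1

lemma dft_ff {n : ℕ} [NeZero n] (K : ℕ) (h : ZMod n) :
    ZMod.dft (fun y => ((ff n K y : ℤ) : ℂ)) (-h) = (-1 : ℂ) ^ K * ((Hh n K h : ℤ) : ℂ) := by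
  classical
  have hn0 : (n : ℂ) ≠ 0 := by exact_mod_cast NeZero.ne n
  rw [ZMod.dft_apply]
  have h1 : ∀ y : ZMod n, ((ff n K y : ℤ) : ℂ) = ∑ j ∈ range (K + 1), (-1 : ℂ) ^ j *
      ((n : ℂ)⁻¹ * ∑ a : ZMod n, ZMod.stdAddChar (a * (-((j + 1 : ℕ) : ZMod n) * y)) *
      (((-1 : ℂ)) ^ (K - j) * ((tm n (gd a) (K - j) : ℤ) : ℂ))) := by
    intro y
    unfold ff
    rw [T_expand]
    push_cast
    refine Finset.sum_congr rfl fun j _ => ?_
    rw [b_inv]
    have h2 : ∀ a : ZMod n, a * (-y - (j : ZMod n) * y) = a * (-(((j : ZMod n) + 1)) * y) := by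
      intro a; ring
    simp only [h2]
  simp only [h1, smul_eq_mul]
  have h2 : ∀ y : ZMod n, (ZMod.stdAddChar (-(y * -h)) : ℂ) * ∑ j ∈ range (K + 1), (-1 : ℂ) ^ j *
      ((n : ℂ)⁻¹ * ∑ a : ZMod n, ZMod.stdAddChar (a * (-((j + 1 : ℕ) : ZMod n) * y)) *
      (((-1 : ℂ)) ^ (K - j) * ((tm n (gd a) (K - j) : ℤ) : ℂ))) =
      ∑ j ∈ range (K + 1), ∑ a : ZMod n, (-1 : ℂ) ^ j * (n : ℂ)⁻¹ *
        (((-1 : ℂ)) ^ (K - j) * ((tm n (gd a) (K - j) : ℤ) : ℂ)) *
        ZMod.stdAddChar (y * (h - ((j + 1 : ℕ) : ZMod n) * a)) := by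
    intro y
    rw [Finset.mul_sum]
    refine Finset.sum_congr rfl fun j _ => ?_
    rw [Finset.mul_sum, Finset.mul_sum, Finset.mul_sum]
    refine Finset.sum_congr rfl fun a _ => ?_
    have h3 : y * (h - ((j + 1 : ℕ) : ZMod n) * a) =
      (-(y * -h)) + a * (-((j + 1 : ℕ) : ZMod n) * y) := by ring
    rw [h3, AddChar.map_add_eq_mul]
    ring
  rw [Finset.sum_congr rfl (fun y _ => h2 y), Finset.sum_comm]
  unfold Hh
  push_cast
  rw [Finset.mul_sum]
  refine Finset.sum_congr rfl fun j hj => ?_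
  rw [Finset.sum_comm]
  rw [Finset.sum_filter, Finset.mul_sum]
  refine Finset.sum_congr rfl fun a _ => ?_
  rw [← Finset.mul_sum, AddChar.sum_mulShift _ (ZMod.isPrimitive_stdAddChar n), ZMod.card]
  have hjK : j ≤ K := by
    have := Finset.mem_range.1 hj; omega
  have h5 : (-1 : ℂ) ^ K = (-1) ^ j * (-1) ^ (K - j) := by
    rw [← pow_add]; congr 1; omega
  by_cases h4 : h - ((j : ZMod n) + 1) * a = 0
  · have h6 : ((j : ZMod n) + 1) * a = h := by
      rw [sub_eq_zero] at h4; rw [h4]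
    rw [if_pos h4, if_pos h6, h5]
    field_simp
  · have h6 : ¬ ((j : ZMod n) + 1) * a = h := by
      intro h7; apply h4; rw [← h7]; ring
    rw [if_neg h4, if_neg h6]; simp

/-- constant off `0` on one side -/
lemma dft_const {n : ℕ} [NeZero n] {F : ZMod n → ℂ} {h : ZMod n} (hh : h ≠ 0) (c : ℂ)
    (hc : ∀ y : ZMod n, y ≠ 0 → F y = c) : ZMod.dft F h = F 0 - c := by
  classical
  have h1 : ∀ y : ZMod n, F y = c + if y = 0 then F 0 - c else 0 := by
    intro y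
    by_cases hy : y = 0
    · subst hy; rw [if_pos rfl]; ring
    · rw [if_neg hy, hc y hy]; ring
  rw [ZMod.dft_apply]
  have h2 : ∀ y : ZMod n, (ZMod.stdAddChar (-(y * h)) : ℂ) • F y =
      c * ZMod.stdAddChar (y * (-h)) + if y = 0 then F 0 - c else 0 := by
    intro y
    rw [h1 y]
    by_cases hy : y = 0
    · subst hy
      simp
    · rw [if_neg hy, smul_eq_mul, mul_neg]; ring
  rw [Finset.sum_congr rfl (fun y _ => h2 y), Finset.sum_add_distrib, ← Finset.mul_sum,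
    AddChar.sum_mulShift _ (ZMod.isPrimitive_stdAddChar n), if_neg (neg_ne_zero.2 hh)]
  simp

lemma const_dft {n : ℕ} [NeZero n] {F : ZMod n → ℂ}
    (hF : ∀ y y' : ZMod n, y ≠ 0 → y' ≠ 0 → F y = F y') (h h' : ZMod n) (hh : h ≠ 0)
    (hh' : h' ≠ 0) : ZMod.dft F h = ZMod.dft F h' := by
  rw [dft_const hh (F h) (fun y hy => hF y h hy hh),
    dft_const hh' (F h) (fun y hy => hF y h hy hh)]

lemma const_dft_iff {n : ℕ} [NeZero n] (F : ZMod n → ℂ) :
    (∀ y y' : ZMod n, y ≠ 0 → y' ≠ 0 → F y = F y') ↔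
      (∀ h h' : ZMod n, h ≠ 0 → h' ≠ 0 → ZMod.dft F h = ZMod.dft F h') := by
  constructor
  · intro hF h h' hh hh'
    exact const_dft hF h h' hh hh'
  · intro hF y y' hy hy'
    have h1 := const_dft hF (-y) (-y') (neg_ne_zero.2 hy) (neg_ne_zero.2 hy')
    rw [ZMod.dft_dft] at h1
    have hn0 : (n : ℂ) ≠ 0 := by exact_mod_cast NeZero.ne n
    simp only [neg_neg, smul_eq_mul] at h1
    exact mul_left_cancel₀ hn0 h1

theorem const_iff_Hh {n : ℕ} [NeZero n] (K : ℕ) :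
    Const n (K + 1) 0 ↔ ∀ h h' : ZMod n, h ≠ 0 → h' ≠ 0 → Hh n K h = Hh n K h' := by
  rw [const_iff]
  have h1 := const_dft_iff (fun y : ZMod n => ((ff n K y : ℤ) : ℂ))
  have h2 : (∀ y y' : ZMod n, y ≠ 0 → y' ≠ 0 → ((ff n K y : ℤ) : ℂ) = ((ff n K y' : ℤ) : ℂ)) ↔
      (∀ y y' : ZMod n, y ≠ 0 → y' ≠ 0 →
      T n K (((0 : ℤ) : ZMod n) - y) y = T n K (((0 : ℤ) : ZMod n) - y') y') := by
    constructor
    · intro h y y' hy hy'
      have := h y y' hy hy'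
      rw [Int.cast_zero, zero_sub, zero_sub]
      exact_mod_cast this
    · intro h y y' hy hy'
      have := h y y' hy hy'
      rw [Int.cast_zero, zero_sub, zero_sub] at this
      unfold ff
      rw [this]
  rw [← h2, h1]
  have h0 : (-1 : ℂ) ^ K ≠ 0 := pow_ne_zero _ (by norm_num)
  constructor
  · intro h h1 h2 hh1 hh2
    have h3 := h (-h1) (-h2) (neg_ne_zero.2 hh1) (neg_ne_zero.2 hh2)
    rw [dft_ff, dft_ff] at h3
    exact_mod_cast mul_left_cancel₀ h0 h3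
  · intro h h1 h2 hh1 hh2
    have h3 := h (-h1) (-h2) (neg_ne_zero.2 hh1) (neg_ne_zero.2 hh2)
    have h4 := dft_ff K (-h1)
    have h5 := dft_ff K (-h2)
    rw [neg_neg] at h4 h5
    rw [h4, h5, h3]

/-- invariance under units -/
lemma Hh_unit {n : ℕ} [NeZero n] (K : ℕ) (u : (ZMod n)ˣ) (h : ZMod n) :
    Hh n K ((u : ZMod n) * h) = Hh n K h := by
  have h1 : (fun y : ZMod n => ((ff n K (((u⁻¹ : (ZMod n)ˣ) : ZMod n) * y) : ℤ) : ℂ)) =
      (fun y : ZMod n => ((ff n K y : ℤ) : ℂ)) := by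
    funext y
    unfold ff
    rw [← mul_neg, T_unit]
  have h2 := ZMod.dft_comp_unitMul (fun y : ZMod n => ((ff n K y : ℤ) : ℂ)) u⁻¹ (-h)
  rw [h1, inv_inv, mul_neg, dft_ff, dft_ff] at h2
  have h0 : (-1 : ℂ) ^ K ≠ 0 := pow_ne_zero _ (by norm_num)
  exact_mod_cast (mul_left_cancel₀ h0 h2).symm

end Pool.Agent.H58.SD
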