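import Mathlib
import Pool.Agent.H58.SD.F1

/-!
# Arithmetic form of the criterion: classes of residues with the same gcd
-/

set_option autoImplicit false

open Finset

namespace Pool.Agent.H58.SD

open Pool.Agent.H47.SD

lemma gd_natCast {n : ℕ} (x : ℕ) : gd (x : ZMod n) = Nat.gcd n x := by
  unfold gd
  rw [ZMod.val_natCast, Nat.gcd_comm, ← Nat.gcd_rec]

lemma gd_natmul {n : ℕ} [NeZero n] (i : ℕ) (a : ZMod n) :
    gd ((i : ZMod n) * a) = gd a * Nat.gcd (n / gd a) i := by
  have h1 : (i : ZMod n) * a = ((i * a.val : ℕ) : ZMod n) := by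
    push_cast; rw [ZMod.natCast_zmod_val]
  rw [h1, gd_natCast]
  have hg := gd_pos a
  have h2 : Nat.Coprime (n / gd a) (a.val / gd a) := Nat.coprime_div_gcd_div_gcd hg
  have h3 : n = gd a * (n / gd a) := (Nat.mul_div_cancel' (gd_dvd a)).symm
  have h4 : a.val = gd a * (a.val / gd a) := (Nat.mul_div_cancel' (Nat.gcd_dvd_right _ _)).symm
  have h5 : i * a.val = gd a * (i * (a.val / gd a)) := by
    conv_lhs => rw [h4]
    ring
  rw [h5]
  have h6 : Nat.gcd n (gd a * (i * (a.val / gd a))) =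
      Nat.gcd (gd a * (n / gd a)) (gd a * (i * (a.val / gd a))) := by rw [← h3]
  rw [h6, Nat.gcd_mul_left, Nat.Coprime.gcd_mul_right_cancel_right i h2.symm]

lemma card_gd {n : ℕ} [NeZero n] {e : ℕ} (he : e ∣ n) :
    (univ.filter (fun a : ZMod n => gd a = e)).card = Nat.totient (n / e) := by
  rw [Nat.totient_div_of_dvd he]
  refine Finset.card_bij (fun a _ => a.val) ?_ ?_ ?_
  · intro a ha
    rw [Finset.mem_filter] at ha ⊢
    exact ⟨Finset.mem_range.2 (ZMod.val_lt a), ha.2⟩
  · intro a _ c _ h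
    exact ZMod.val_injective n h
  · intro x hx
    rw [Finset.mem_filter, Finset.mem_range] at hx
    refine ⟨(x : ZMod n), ?_, ZMod.val_cast_of_lt hx.1⟩
    rw [Finset.mem_filter]
    refine ⟨Finset.mem_univ _, ?_⟩
    rw [gd_natCast, hx.2]

lemma sum_gd {n : ℕ} [NeZero n] (G : ℕ → ℤ) :
    ∑ a : ZMod n, G (gd a) = ∑ e ∈ n.divisors, (Nat.totient (n / e) : ℤ) * G e := by
  have h1 : ∀ a ∈ (univ : Finset (ZMod n)), gd a ∈ n.divisors := by
    intro a _
    rw [Nat.mem_divisors]
    exact ⟨gd_dvd a, NeZero.ne n⟩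
  rw [← Finset.sum_fiberwise_of_maps_to h1]
  refine Finset.sum_congr rfl fun e he => ?_
  rw [← card_gd (Nat.dvd_of_mem_divisors he)]
  rw [Finset.sum_congr rfl (g := fun _ => G e), Finset.sum_const, nsmul_eq_mul]
  intro a ha
  rw [(Finset.mem_filter.1 ha).2]

/-- the class sum -/
lemma class_sum {n : ℕ} [NeZero n] (K : ℕ) (d : ℕ) :
    ∑ h ∈ univ.filter (fun h : ZMod n => gd h = d), Hh n K h =
      ∑ e ∈ n.divisors, (Nat.totient (n / e) : ℤ) *
        ∑ j ∈ (range (K + 1)).filter (fun j => e * Nat.gcd (n / e) (j + 1) = d),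
          tm n e (K - j) := by
  classical
  unfold Hh
  rw [Finset.sum_comm]
  have h1 : ∀ j ∈ range (K + 1), ∑ h ∈ univ.filter (fun h : ZMod n => gd h = d),
      ∑ a ∈ univ.filter (fun a : ZMod n => ((j + 1 : ℕ) : ZMod n) * a = h), tm n (gd a) (K - j) =
      ∑ e ∈ n.divisors, (Nat.totient (n / e) : ℤ) *
        (if e * Nat.gcd (n / e) (j + 1) = d then tm n e (K - j) else 0) := by
    intro j _
    rw [← sum_gd (fun e => if e * Nat.gcd (n / e) (j + 1) = d then tm n e (K - j) else 0)]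
    rw [Finset.sum_filter]
    have h2 : ∀ h : ZMod n, (if gd h = d then
        ∑ a ∈ univ.filter (fun a : ZMod n => ((j + 1 : ℕ) : ZMod n) * a = h), tm n (gd a) (K - j)
        else 0) = ∑ a : ZMod n, if ((j + 1 : ℕ) : ZMod n) * a = h then
          (if gd h = d then tm n (gd a) (K - j) else 0) else 0 := by
      intro h
      by_cases hh : gd h = d
      · simp only [if_pos hh]
        rw [Finset.sum_filter]
      · simp [if_neg hh]
    rw [Finset.sum_congr rfl (fun h _ => h2 h), Finset.sum_comm]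
    refine Finset.sum_congr rfl fun a _ => ?_
    rw [Finset.sum_ite_eq univ (((j + 1 : ℕ) : ZMod n) * a), if_pos (Finset.mem_univ _), gd_natmul]
  rw [Finset.sum_congr rfl h1, Finset.sum_comm]
  refine Finset.sum_congr rfl fun e _ => ?_
  rw [Finset.sum_filter, Finset.mul_sum]

/-- elements with the same gcd are associated -/
lemma exists_unit {n : ℕ} [NeZero n] (h : ZMod n) :
    ∃ u : (ZMod n)ˣ, h = (u : ZMod n) * ((gd h : ℕ) : ZMod n) := by
  obtain ⟨d, hd, u, hu, hh⟩ := h.eq_unit_mul_divisor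
  obtain ⟨v, rfl⟩ := hu
  refine ⟨v, ?_⟩
  have h1 : gd h = d := by
    have h2 : ((v : ZMod n)) = (((v : ZMod n).val : ℕ) : ZMod n) := by rw [ZMod.natCast_zmod_val]
    have h3 : h = (((v : ZMod n).val * d : ℕ) : ZMod n) := by
      rw [hh]; push_cast; rw [ZMod.natCast_zmod_val]
    rw [h3, gd_natCast]
    have h4 : Nat.Coprime (v : ZMod n).val n := ZMod.val_coe_unit_coprime v
    rw [Nat.Coprime.gcd_mul_left_cancel_right d h4, Nat.gcd_eq_right hd]
  rw [h1]; exact hh

lemma Hh_gd {n : ℕ} [NeZero n] (K : ℕ) (h : ZMod n) : Hh n K h = Hh n K ((gd h : ℕ) : ZMod n) := by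
  obtain ⟨u, hu⟩ := exists_unit h
  conv_lhs => rw [hu]
  exact Hh_unit K u _

lemma class_sum' {n : ℕ} [NeZero n] (K : ℕ) {d : ℕ} (hd : d ∣ n) :
    ∑ h ∈ univ.filter (fun h : ZMod n => gd h = d), Hh n K h =
      (Nat.totient (n / d) : ℤ) * Hh n K ((d : ℕ) : ZMod n) := by
  rw [← card_gd hd, Finset.sum_congr rfl (g := fun _ => Hh n K ((d : ℕ) : ZMod n)),
    Finset.sum_const, nsmul_eq_mul]
  intro h hh
  rw [Hh_gd, (Finset.mem_filter.1 hh).2]

/-- contribution of the divisor `e` to the class `d = e δ` -/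
def Wt (n K e δ : ℕ) : ℤ :=
  ∑ j ∈ (range (K + 1)).filter (fun j => Nat.gcd (n / e) (j + 1) = δ), tm n e (K - j)

lemma class_Wt {n : ℕ} [NeZero n] (K : ℕ) {d : ℕ} (hd : d ∣ n) :
    (Nat.totient (n / d) : ℤ) * Hh n K ((d : ℕ) : ZMod n) =
      ∑ e ∈ d.divisors, (Nat.totient (n / e) : ℤ) * Wt n K e (d / e) := by
  have hd0 : 0 < d := Nat.pos_of_dvd_of_pos hd (NeZero.pos n)
  rw [← class_sum' K hd, class_sum]
  symm
  have hsub : d.divisors ⊆ n.divisors := Nat.divisors_subset_of_dvd (NeZero.ne n) hd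
  rw [← Finset.sum_subset hsub]
  · refine Finset.sum_congr rfl fun e he => ?_
    have hed := Nat.dvd_of_mem_divisors he
    have he0 : 0 < e := Nat.pos_of_dvd_of_pos hed hd0
    unfold Wt
    congr 2
    ext j
    simp only [Finset.mem_filter]
    refine and_congr_right fun _ => ?_
    obtain ⟨c, rfl⟩ := hed
    rw [Nat.mul_div_cancel_left _ he0]
    constructor
    · intro h; rw [h]
    · intro h; exact Nat.eq_of_mul_eq_mul_left he0 h
  · intro e _ hed
    have : (range (K + 1)).filter (fun j => e * Nat.gcd (n / e) (j + 1) = d) = ∅ := by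
      rw [Finset.filter_eq_empty_iff]
      intro j _ h
      apply hed
      rw [Nat.mem_divisors]
      exact ⟨⟨_, h.symm⟩, hd0.ne'⟩
    rw [this, Finset.sum_empty, mul_zero]

lemma sum_range_mul' (F : ℕ → ℤ) (q s : ℕ) :
    ∑ j ∈ range (q * s), F j = ∑ v ∈ range q, ∑ t ∈ range s, F (v * s + t) := by
  induction q with
  | zero => simp
  | succ q ih => rw [Nat.succ_mul, Finset.sum_range_add, ih, Finset.sum_range_succ]

lemma card_block {s δ : ℕ} (hδ : δ ∣ s) (a : ℕ) :
    ((range s).filter (fun t => Nat.gcd s (a + t) = δ)).card = Nat.totient (s / δ) := by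
  have hper : Function.Periodic (fun x => Nat.gcd s x = δ) s := by
    intro x
    simp only [Nat.gcd_add_self_right]
  have h1 := Nat.filter_Ico_card_eq_of_periodic a s (fun x => Nat.gcd s x = δ) hper
  have h2 : ((range s).filter (fun x => Nat.gcd s x = δ)).card = Nat.count (fun x => Nat.gcd s x = δ) s :=
    (Nat.count_eq_card_filter_range _ _).symm
  rw [Nat.totient_div_of_dvd hδ, h2, ← h1]
  refine Finset.card_bij (fun t _ => a + t) ?_ ?_ ?_
  · intro t ht
    rw [Finset.mem_filter, Finset.mem_range] at ht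
    rw [Finset.mem_filter, Finset.mem_Ico]
    exact ⟨⟨by omega, by omega⟩, ht.2⟩
  · intro t _ t' _ h
    exact Nat.add_left_cancel h
  · intro x hx
    rw [Finset.mem_filter, Finset.mem_Ico] at hx
    refine ⟨x - a, ?_, by omega⟩
    rw [Finset.mem_filter, Finset.mem_range]
    refine ⟨by omega, ?_⟩
    rw [show a + (x - a) = x by omega]
    exact hx.2

/-- number of `c ∈ [1,r]` with `gcd(s,c) = δ` -/
def nn (s δ r : ℕ) : ℕ := ((range r).filter (fun j => Nat.gcd s (j + 1) = δ)).card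

/-- alternating partial sums of binomial coefficients -/
def AA (N t : ℕ) : ℤ := ∑ u ∈ range t, (-1) ^ u * (Nat.choose (N - 1) u : ℤ)

lemma Wt_eq {n e δ : ℕ} (K : ℕ) (hs : 0 < n / e) (hδ : δ ∣ n / e) :
    Wt n K e δ = (Nat.totient (n / e / δ) : ℤ) * AA e ((K + 1) / (n / e)) +
      (nn (n / e) δ ((K + 1) % (n / e)) : ℤ) *
        ((-1) ^ ((K + 1) / (n / e)) * (Nat.choose (e - 1) ((K + 1) / (n / e)) : ℤ)) := by
  set s := n / e with hsdef
  set q := (K + 1) / s with hq
  set r := (K + 1) % s with hr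
  have hK : K + 1 = r + q * s := by
    rw [hq, hr, mul_comm]; exact (Nat.mod_add_div _ _).symm
  have hrs : r < s := Nat.mod_lt _ hs
  unfold Wt tm
  rw [← hsdef]
  set t : ℕ → ℤ := fun u => (-1) ^ u * (Nat.choose (e - 1) u : ℤ) with ht
  have h0 : ∑ j ∈ (range (K + 1)).filter (fun j => Nat.gcd s (j + 1) = δ),
      (-1) ^ ((K - j) / s) * (Nat.choose (e - 1) ((K - j) / s) : ℤ) =
      ∑ j ∈ range (r + q * s), if Nat.gcd s (j + 1) = δ then t ((K - j) / s) else 0 := by
    rw [Finset.sum_filter, ← hK]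
  rw [h0, Finset.sum_range_add, sum_range_mul']
  have h1 : ∑ j ∈ range r, (if Nat.gcd s (j + 1) = δ then t ((K - j) / s) else 0) =
      (nn s δ r : ℤ) * t q := by
    rw [nn, ← Finset.sum_filter, Finset.sum_congr rfl (g := fun _ => t q), Finset.sum_const,
      nsmul_eq_mul]
    intro j hj
    rw [Finset.mem_filter, Finset.mem_range] at hj
    congr 1
    have : K - j = (r - 1 - j) + q * s := by omega
    rw [this, Nat.add_mul_div_right _ _ hs, Nat.div_eq_of_lt (by omega), zero_add]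
  have h2 : ∑ v ∈ range q, ∑ x ∈ range s, (if Nat.gcd s (r + (v * s + x) + 1) = δ then
      t ((K - (r + (v * s + x))) / s) else 0) =
      (Nat.totient (s / δ) : ℤ) * AA e q := by
    have h3 : ∀ v ∈ range q, ∑ x ∈ range s, (if Nat.gcd s (r + (v * s + x) + 1) = δ then
      t ((K - (r + (v * s + x))) / s) else 0) = (Nat.totient (s / δ) : ℤ) * t (q - 1 - v) := by
      intro v hv
      rw [Finset.mem_range] at hv
      rw [← card_block hδ (r + v * s + 1), ← Finset.sum_filter]
      have h4 : (range s).filter (fun x => Nat.gcd s (r + (v * s + x) + 1) = δ) =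
          (range s).filter (fun x => Nat.gcd s (r + v * s + 1 + x) = δ) := by
        apply Finset.filter_congr
        intro x _
        rw [show r + (v * s + x) + 1 = r + v * s + 1 + x by ring]
      rw [h4, Finset.sum_congr rfl (g := fun _ => t (q - 1 - v)), Finset.sum_const, nsmul_eq_mul]
      intro x hx
      rw [Finset.mem_filter, Finset.mem_range] at hx
      congr 1
      obtain ⟨w, hw⟩ : ∃ w, q = v + 1 + w := ⟨q - (v + 1), by omega⟩
      have h5 : K - (r + (v * s + x)) = (s - 1 - x) + w * s := by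
        have h6 : K + 1 = r + (v * s + s + w * s) := by rw [hK, hw]; ring
        omega
      rw [h5, Nat.add_mul_div_right _ _ hs, Nat.div_eq_of_lt (by omega), zero_add]
      omega
    rw [Finset.sum_congr rfl h3, ← Finset.mul_sum, AA, Finset.sum_range_reflect]
  rw [h1, h2, ht]
  ring

/-- number of `i ∈ [1,k]` coprime to `n` -/
def Ph (n k : ℕ) : ℕ := nn n 1 k

/-- weight of the divisor `e` for the class `d` -/
def WW (n k e d : ℕ) : ℤ :=
  (Nat.totient (n / d) : ℤ) * AA e (k / (n / e)) +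
    (nn (n / e) (d / e) (k % (n / e)) : ℤ) * ((-1) ^ (k / (n / e)) * (Nat.choose (e - 1) (k / (n / e)) : ℤ))

/-- class sum, arithmetic form -/
def PP (n k d : ℕ) : ℤ := ∑ e ∈ d.divisors, (Nat.totient (n / e) : ℤ) * WW n k e d

lemma class_PP {n : ℕ} [NeZero n] (K : ℕ) {d : ℕ} (hd : d ∣ n) :
    (Nat.totient (n / d) : ℤ) * Hh n K ((d : ℕ) : ZMod n) = PP n (K + 1) d := by
  have hd0 : 0 < d := Nat.pos_of_dvd_of_pos hd (NeZero.pos n)
  rw [class_Wt K hd, PP]
  refine Finset.sum_congr rfl fun e he => ?_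
  have hed := Nat.dvd_of_mem_divisors he
  have he0 : 0 < e := Nat.pos_of_dvd_of_pos hed hd0
  have hs : 0 < n / e := Nat.div_pos (Nat.le_of_dvd (NeZero.pos n) (hed.trans hd)) he0
  have hδ : d / e ∣ n / e := Nat.div_dvd_div hed hd
  rw [Wt_eq K hs hδ, WW]
  congr 4
  obtain ⟨c, rfl⟩ := hed
  obtain ⟨f, rfl⟩ := hd
  have hc0 : 0 < c := Nat.pos_of_mul_pos_left hd0 |> fun _ => by
    rcases Nat.eq_zero_or_pos c with h | h
    · subst h; simp at hd0
    · exact h
  rw [Nat.mul_div_cancel_left _ he0, mul_assoc, Nat.mul_div_cancel_left _ he0,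
    Nat.mul_div_cancel_left _ hc0, ← mul_assoc, Nat.mul_div_cancel_left _ hd0]

lemma PP_one {n k : ℕ} (hkn : k < n) : PP n k 1 = (Nat.totient n : ℤ) * (Ph n k : ℤ) := by
  unfold PP WW Ph
  rw [Nat.divisors_one, Finset.sum_singleton, Nat.div_one, Nat.div_one, Nat.mod_eq_of_lt hkn,
    Nat.div_eq_of_lt hkn]
  simp [AA]

/-- The arithmetic criterion for sum `0` -/
theorem const_iff_PP {n k : ℕ} [NeZero n] (hk1 : 1 ≤ k) (hkn : k < n) :
    Const n k 0 ↔ ∀ d, d ∣ n → d ≠ n → PP n k d = (Nat.totient (n / d) : ℤ) * (Ph n k : ℤ) := by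
  obtain ⟨K, rfl⟩ : ∃ K, k = K + 1 := ⟨k - 1, by omega⟩
  have hn2 : 2 ≤ n := by omega
  have h1 : Hh n K ((1 : ℕ) : ZMod n) = (Ph n (K + 1) : ℤ) := by
    have h2 := class_PP K (one_dvd n)
    rw [PP_one hkn, Nat.div_one] at h2
    have h3 : (Nat.totient n : ℤ) ≠ 0 := by
      exact_mod_cast (Nat.totient_pos.2 (by omega)).ne'
    exact mul_left_cancel₀ h3 h2
  have hcast : ∀ d, d ∣ n → d ≠ n → ((d : ℕ) : ZMod n) ≠ 0 := by
    intro d hd hdn h
    rw [ZMod.natCast_eq_zero_iff] at h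
    exact hdn (Nat.dvd_antisymm hd h)
  rw [const_iff_Hh]
  constructor
  · intro h d hd hdn
    rw [← class_PP K hd, h _ ((1 : ℕ) : ZMod n) (hcast d hd hdn) (hcast 1 (one_dvd n) (by omega)), h1]
  · intro h x y hx hy
    have key : ∀ x : ZMod n, x ≠ 0 → Hh n K x = (Ph n (K + 1) : ℤ) := by
      intro x hx
      rw [Hh_gd]
      have hgn : gd x ≠ n := by
        intro hg
        apply hx
        obtain ⟨u, hu⟩ := exists_unit x
        rw [hu, hg, ZMod.natCast_self, mul_zero]
      have h2 := h (gd x) (gd_dvd x) hgn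
      rw [← class_PP K (gd_dvd x)] at h2
      have h3 : (Nat.totient (n / gd x) : ℤ) ≠ 0 := by
        have : 0 < n / gd x := Nat.div_pos (Nat.le_of_dvd (NeZero.pos n) (gd_dvd x)) (gd_pos x)
        exact_mod_cast (Nat.totient_pos.2 this).ne'
      exact mul_left_cancel₀ h3 h2
    rw [key x hx, key y hy]

end Pool.Agent.H58.SD
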