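import Mathlib
import Pool.Agent.H58.SD.F2

/-!
# Sufficiency
-/

set_option autoImplicit false

open Finset

namespace Pool.Agent.H58.SD

open Pool.Agent.H47.SD

lemma AA_mul (N t : ℕ) : (N : ℤ) * ∑ u ∈ range t, (-1) ^ u * (Nat.choose N u : ℤ) =
    - ((-1) ^ t * (t * (Nat.choose N t : ℤ))) := by
  induction t with
  | zero => simp
  | succ t ih =>
    rw [Finset.sum_range_succ, mul_add, ih]
    have h1 : ((Nat.choose N (t + 1) : ℤ)) * (t + 1) = (Nat.choose N t : ℤ) * (N - t) := by
      rcases le_or_gt t N with h | h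
      · have := Nat.choose_succ_right_eq N t
        have h2 : ((N - t : ℕ) : ℤ) = (N : ℤ) - t := by push_cast [h]; ring
        rw [← h2]
        exact_mod_cast this
      · rw [Nat.choose_eq_zero_of_lt h, Nat.choose_eq_zero_of_lt (by omega)]; simp
    rw [pow_succ]
    push_cast
    linear_combination (-(-1 : ℤ) ^ t) * h1

/-- the basic identity for the weight -/
lemma WW_mul {n k e d : ℕ} (he : 1 ≤ e) :
    ((e : ℤ) - 1) * WW n k e d = (-1) ^ (k / (n / e)) * (Nat.choose (e - 1) (k / (n / e)) : ℤ) *
      (((e : ℤ) - 1) * (nn (n / e) (d / e) (k % (n / e)) : ℤ) -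
        (Nat.totient (n / d) : ℤ) * ((k / (n / e) : ℕ) : ℤ)) := by
  have h1 : ((e : ℤ) - 1) = ((e - 1 : ℕ) : ℤ) := by push_cast [he]; ring
  have h2 := AA_mul (e - 1) (k / (n / e))
  unfold WW AA
  rw [h1]
  linear_combination (Nat.totient (n / d) : ℤ) * h2

/-- symmetric sum of nonzero residues -/
lemma sum_nonzero_odd {n : ℕ} [NeZero n] (hodd : Odd n) : ∑ v ∈ univ.erase (0 : ZMod n), v = 0 := by
  have h1 : ∑ v ∈ univ.erase (0 : ZMod n), v = ∑ v ∈ univ.erase (0 : ZMod n), -v := by
    refine Finset.sum_nbij' (fun v => -v) (fun v => -v) ?_ ?_ ?_ ?_ ?_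
    · intro v hv
      rw [Finset.mem_erase] at hv ⊢
      exact ⟨neg_ne_zero.2 hv.1, Finset.mem_univ _⟩
    · intro v hv
      rw [Finset.mem_erase] at hv ⊢
      exact ⟨neg_ne_zero.2 hv.1, Finset.mem_univ _⟩
    · intro v _; rw [neg_neg]
    · intro v _; rw [neg_neg]
    · intro v _; rw [neg_neg]
  rw [Finset.sum_neg_distrib] at h1
  apply two_unit hodd
  linear_combination h1

lemma const0_compl {n k : ℕ} [NeZero n] (hodd : Odd n) (hk : 1 ≤ k) (hkn : k + 2 ≤ n)
    (h : Const n k 0) : Const n (n - 1 - k) 0 := by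
  refine const_compl hk hkn (x := 0) (x' := 0) ?_ h
  rw [sum_nonzero_odd hodd]; simp

lemma const0_compl_iff {n k : ℕ} [NeZero n] (hodd : Odd n) (hk : 1 ≤ k) (hkn : k + 2 ≤ n) :
    Const n (n - 1 - k) 0 ↔ Const n k 0 := by
  constructor
  · intro h
    have := const0_compl hodd (by omega) (by omega) h
    rwa [show n - 1 - (n - 1 - k) = k by omega] at this
  · exact const0_compl hodd hk hkn

/-- Case (S1): `k` is smaller than all prime factors of `n` -/
lemma suff_small {n k : ℕ} [NeZero n] (hk1 : 1 ≤ k) (hkn : k < n)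
    (hsmall : ∀ p, p.Prime → p ∣ n → k < p) : Const n k 0 := by
  rw [const_iff_PP hk1 hkn]
  have hcop : ∀ s, s ∣ n → ∀ c, 1 ≤ c → c ≤ k → Nat.gcd s c = 1 := by
    intro s hs c hc1 hck
    by_contra hne
    obtain ⟨p, hp, hpd⟩ := Nat.exists_prime_and_dvd hne
    have h1 := hsmall p hp ((hpd.trans (Nat.gcd_dvd_left _ _)).trans hs)
    have h2 := Nat.le_of_dvd hc1 (hpd.trans (Nat.gcd_dvd_right _ _))
    omega
  have hnn : ∀ s, s ∣ n → ∀ δ, nn s δ k = if δ = 1 then k else 0 := by
    intro s hs δ
    unfold nn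
    have h1 : (range k).filter (fun j => Nat.gcd s (j + 1) = δ) =
        if δ = 1 then range k else ∅ := by
      ext j
      rw [Finset.mem_filter, Finset.mem_range]
      split_ifs with h
      · rw [Finset.mem_range]
        constructor
        · intro h'; exact h'.1
        · intro h'; exact ⟨h', by rw [hcop s hs (j + 1) (by omega) (by omega), h]⟩
      · constructor
        · intro h'
          exact absurd (by rw [← h'.2, hcop s hs (j + 1) (by omega) (by omega)]) h
        · intro h'; simp at h'
    rw [h1]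
    split_ifs <;> simp
  have hbig : ∀ s, s ∣ n → s ≠ 1 → k < s := by
    intro s hs hs1
    obtain ⟨p, hp, hpd⟩ := Nat.exists_prime_and_dvd hs1
    have h1 := hsmall p hp (hpd.trans hs)
    have h2 := Nat.le_of_dvd (Nat.pos_of_dvd_of_pos hs (NeZero.pos n)) hpd
    omega
  intro d hd hdn
  have hd0 : 0 < d := Nat.pos_of_dvd_of_pos hd (NeZero.pos n)
  have hW : ∀ e ∈ d.divisors, (Nat.totient (n / e) : ℤ) * WW n k e d =
      if e = d then (Nat.totient (n / d) : ℤ) * k else 0 := by
    intro e he
    have hed := Nat.dvd_of_mem_divisors he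
    have he0 : 0 < e := Nat.pos_of_dvd_of_pos hed hd0
    have hs : n / e ∣ n := Nat.div_dvd_of_dvd (hed.trans hd)
    have hs1 : n / e ≠ 1 := by
      intro h
      have h1 : n = e := by
        have := Nat.div_mul_cancel (hed.trans hd)
        rw [h, one_mul] at this; exact this.symm
      apply hdn
      exact Nat.dvd_antisymm hd (by rw [h1]; exact hed)
    have hks := hbig _ hs hs1
    unfold WW
    rw [Nat.div_eq_of_lt hks, Nat.mod_eq_of_lt hks, hnn _ hs]
    by_cases hee : e = d
    · subst hee
      rw [if_pos (Nat.div_self he0), if_pos rfl]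
      simp [AA]
    · have : ¬ d / e = 1 := by
        intro h
        apply hee
        have := Nat.div_mul_cancel hed
        rw [h, one_mul] at this; exact this
      rw [if_neg this, if_neg hee]
      simp [AA]
  unfold PP Ph
  rw [Finset.sum_congr rfl hW, Finset.sum_ite_eq' d.divisors d, if_pos (Nat.mem_divisors_self d hd0.ne'),
    hnn n dvd_rfl, if_pos rfl]

/-- quotient and remainder when `k : n - 1 = α : β` and the factors are `1 mod β` -/
lemma div_mod_of {α β g e' s' k : ℕ} (hαβ : α < β) (hk : k = α * g)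
    (hn : β * g + 1 = (β * e' + 1) * (β * s' + 1)) :
    k / (β * s' + 1) = α * e' ∧ k % (β * s' + 1) = α * s' := by
  have hβ : 0 < β := by omega
  have hg : g = e' * (β * s' + 1) + s' := by
    have : β * g = β * (e' * (β * s' + 1) + s') := by
      have h1 : (β * e' + 1) * (β * s' + 1) = β * (e' * (β * s' + 1) + s') + 1 := by ring
      omega
    exact Nat.eq_of_mul_eq_mul_left hβ this
  have hlt : α * s' < β * s' + 1 := by
    have := Nat.mul_le_mul_right s' hαβ.le
    omega
  have hk' : k = α * s' + (β * s' + 1) * (α * e') := by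
    rw [hk, hg]; ring
  constructor
  · rw [hk', Nat.add_mul_div_left _ _ (by omega), Nat.div_eq_of_lt hlt, zero_add]
  · rw [hk', Nat.add_mul_mod_self_left, Nat.mod_eq_of_lt hlt]

/-- scaling of the counting function -/
lemma nn_scale {δ t r : ℕ} (hδ : 0 < δ) : nn (δ * t) δ r = nn t 1 (r / δ) := by
  unfold nn
  symm
  refine Finset.card_bij (fun j _ => δ * (j + 1) - 1) ?_ ?_ ?_
  · intro j hj
    rw [Finset.mem_filter, Finset.mem_range] at hj ⊢
    have h1 : δ * (j + 1) ≤ r := by
      have h2 := Nat.mul_div_le r δ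
      have h3 : δ * (j + 1) ≤ δ * (r / δ) := Nat.mul_le_mul_left δ hj.1
      omega
    have h4 : 0 < δ * (j + 1) := by positivity
    refine ⟨by omega, ?_⟩
    rw [show δ * (j + 1) - 1 + 1 = δ * (j + 1) by omega, Nat.gcd_mul_left, hj.2, mul_one]
  · intro j _ j' _ h
    have h4 : 0 < δ * (j + 1) := by positivity
    have h5 : 0 < δ * (j' + 1) := by positivity
    have h6 : δ * (j + 1) = δ * (j' + 1) := by
      change δ * (j + 1) - 1 = δ * (j' + 1) - 1 at h
      omega
    have := Nat.eq_of_mul_eq_mul_left hδ h6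
    omega
  · intro x hx
    rw [Finset.mem_filter, Finset.mem_range] at hx
    have h1 : δ ∣ x + 1 := by
      rw [← hx.2]; exact Nat.gcd_dvd_right _ _
    obtain ⟨c, hc⟩ := h1
    have hc0 : 0 < c := by
      rcases Nat.eq_zero_or_pos c with h | h
      · subst h; simp at hc
      · exact h
    refine ⟨c - 1, ?_, ?_⟩
    · rw [Finset.mem_filter, Finset.mem_range, show c - 1 + 1 = c by omega]
      constructor
      · have h2 : c ≤ r / δ := by
          rw [Nat.le_div_iff_mul_le hδ]
          have : c * δ = x + 1 := by rw [hc]; ring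
          omega
        omega
      · have h3 := hx.2
        rw [hc, Nat.gcd_mul_left] at h3
        have : δ * Nat.gcd t c = δ * 1 := by omega
        exact Nat.eq_of_mul_eq_mul_left hδ this
    · show δ * (c - 1 + 1) - 1 = x
      rw [show c - 1 + 1 = c by omega]
      omega

/-- sorting `1..r` by the gcd with `t` -/
lemma nn_sum {t : ℕ} (ht : 0 < t) (r : ℕ) : ∑ δ ∈ t.divisors, nn t δ r = r := by
  have h1 : ∀ j ∈ range r, Nat.gcd t (j + 1) ∈ t.divisors := by
    intro j _
    rw [Nat.mem_divisors]
    exact ⟨Nat.gcd_dvd_left _ _, ht.ne'⟩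
  have h2 := Finset.card_eq_sum_card_fiberwise (s := range r) (t := t.divisors)
    (f := fun j => Nat.gcd t (j + 1)) (by
      intro j hj
      exact_mod_cast h1 j (by exact_mod_cast hj))
  rw [Finset.card_range] at h2
  exact h2.symm

/-- in the balanced case, residues below `α t'` coprime to `t` -/
lemma nn_balanced {α β : ℕ} (hαβ : α < β) (n : ℕ) (hn0 : 0 < n)
    (hmod : ∀ s, s ∣ n → ∃ s', s = β * s' + 1) :
    ∀ t t', t ∣ n → t = β * t' + 1 → β * nn t 1 (α * t') = if t = 1 then 0 else α * Nat.totient t := by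
  intro t
  induction t using Nat.strong_induction_on with
  | _ t ih =>
    intro t' ht htt'
    have hβ : 0 < β := by omega
    have ht0 : 0 < t := Nat.pos_of_dvd_of_pos ht hn0
    -- the function on divisors
    have hdiv : ∀ y, y ∣ t → ∀ y', y = β * y' + 1 → nn t (t / y) (α * t') = nn y 1 (α * y') := by
      intro y hy y' hyy'
      obtain ⟨δ, rfl⟩ := hy
      have hy0 : 0 < y := by omega
      rw [Nat.mul_div_cancel_left _ hy0]
      have hδ0 : 0 < δ := by
        rcases Nat.eq_zero_or_pos δ with h | h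
        · subst h; simp at ht0
        · exact h
      obtain ⟨δ', hδ'⟩ := hmod δ ((dvd_mul_left δ y).trans ht)
      rw [mul_comm y δ, nn_scale hδ0]
      congr 1
      have h3 : t' = δ * y' + δ' := by
        have : β * t' = β * (δ * y' + δ') := by
          have h4 : y * δ = β * (δ * y' + δ') + 1 := by
            rw [hyy', hδ']; ring
          omega
        exact Nat.eq_of_mul_eq_mul_left hβ this
      have h5 : α * δ' < δ := by
        have := Nat.mul_le_mul_right δ' hαβ.le
        omega
      rw [h3, show α * (δ * y' + δ') = α * δ' + δ * (α * y') by ring, Nat.add_mul_div_left _ _ hδ0,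
        Nat.div_eq_of_lt h5, zero_add]
    -- choose the quotient function
    have hq : ∀ y, y ∣ t → y = β * ((y - 1) / β) + 1 := by
      intro y hy
      obtain ⟨y', hy'⟩ := hmod y (hy.trans ht)
      rw [hy', Nat.add_sub_cancel, Nat.mul_div_cancel_left _ hβ]
    have hsum : ∑ y ∈ t.divisors, nn y 1 (α * ((y - 1) / β)) = α * t' := by
      rw [← nn_sum ht0 (α * t'), ← Nat.sum_div_divisors t (fun δ => nn t δ (α * t'))]
      refine Finset.sum_congr rfl fun y hy => ?_
      have hy' := Nat.dvd_of_mem_divisors hy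
      rw [hdiv y hy' _ (hq y hy')]
    have htot : ∑ y ∈ t.divisors, Nat.totient y = t := Nat.sum_totient t
    by_cases ht1 : t = 1
    · rw [if_pos ht1]
      have : t' = 0 := by
        rcases Nat.eq_zero_or_pos t' with h | h
        · exact h
        · exfalso
          have := Nat.mul_pos hβ h
          omega
      rw [this]
      simp [nn]
    · rw [if_neg ht1]
      rw [← Nat.insert_self_properDivisors ht0.ne', Finset.sum_insert Nat.self_notMem_properDivisors,
        add_comm] at hsum htot
      have hcg : β * ∑ y ∈ t.properDivisors, nn y 1 (α * ((y - 1) / β)) + α =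
          α * ∑ y ∈ t.properDivisors, Nat.totient y := by
        have h1 : (1 : ℕ) ∈ t.properDivisors := Nat.one_mem_properDivisors_iff_one_lt.2 (by omega)
        rw [← Finset.add_sum_erase _ _ h1, ← Finset.add_sum_erase _ Nat.totient h1, mul_add, mul_add,
          Finset.mul_sum, Finset.mul_sum]
        have h2 : ∑ y ∈ t.properDivisors.erase 1, β * nn y 1 (α * ((y - 1) / β)) =
            ∑ y ∈ t.properDivisors.erase 1, α * Nat.totient y := by
          refine Finset.sum_congr rfl fun y hy => ?_
          rw [Finset.mem_erase, Nat.mem_properDivisors] at hy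
          have := ih y hy.2.2 ((y - 1) / β) (hy.2.1.trans ht) (hq y hy.2.1)
          rw [this, if_neg hy.1]
        rw [h2]
        simp [nn]
        omega
      have h3 : (t - 1) / β = t' := by
        rw [htt', Nat.add_sub_cancel, Nat.mul_div_cancel_left _ hβ]
      rw [h3] at hsum
      -- β * (S + x) = β α t', α (Tt + φ) = α t
      have h4 : β * (∑ y ∈ t.properDivisors, nn y 1 (α * ((y - 1) / β))) + β * nn t 1 (α * t') =
          β * (α * t') := by rw [← mul_add, hsum]
      have h5 : α * (∑ y ∈ t.properDivisors, Nat.totient y) + α * Nat.totient t = α * t := by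
        rw [← mul_add, htot]
      have h6 : α * t = β * (α * t') + α := by rw [htt']; ring
      omega

lemma mod_of_primes {β n : ℕ} (hn0 : 0 < n) (h : ∀ p, p.Prime → p ∣ n → ∃ c, p = β * c + 1) :
    ∀ s, s ∣ n → ∃ s', s = β * s' + 1 := by
  intro s
  induction s using Nat.recOnMul with
  | zero => intro h0; rw [zero_dvd_iff] at h0; omega
  | one => intro _; exact ⟨0, by ring⟩
  | prime p hp => intro hpn; exact h p hp hpn
  | mul a b ha hb =>
    intro hab
    obtain ⟨a', ha'⟩ := ha ((dvd_mul_right a b).trans hab)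
    obtain ⟨b', hb'⟩ := hb ((dvd_mul_left b a).trans hab)
    exact ⟨a' * (β * b' + 1) + b', by rw [ha', hb']; ring⟩

/-- Case (S2): the balanced case -/
lemma suff_balanced {n k : ℕ} [NeZero n] (hk1 : 1 ≤ k) (hkn : k + 2 ≤ n)
    (hbal : ∀ p, p.Prime → p ∣ n → (p - 1) * k = (n - 1) * (k % p)) : Const n k 0 := by
  have hn0 : 0 < n := NeZero.pos n
  rw [const_iff_PP hk1 (by omega)]
  obtain ⟨g, α, β, hg0, hcop, hkα, hnβ⟩ : ∃ g α β, 0 < g ∧ Nat.Coprime α β ∧ k = α * g ∧
      n - 1 = β * g := by
    have hg : 0 < Nat.gcd k (n - 1) := Nat.gcd_pos_of_pos_left _ hk1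
    obtain ⟨g, α, β, h1, h2, h3, h4⟩ := Nat.exists_coprime' hg
    exact ⟨g, α, β, h1, h2, h3, h4⟩
  have hαβ : α < β := by
    have : α * g < β * g := by rw [← hkα, ← hnβ]; omega
    exact Nat.lt_of_mul_lt_mul_right this
  have hα0 : 0 < α := by
    rcases Nat.eq_zero_or_pos α with h | h
    · subst h; omega
    · exact h
  have hβ : 0 < β := by omega
  have hpr : ∀ p, p.Prime → p ∣ n → ∃ c, p = β * c + 1 := by
    intro p hp hpn
    have h1 := hbal p hp hpn
    rw [hkα, hnβ] at h1
    have h2 : (p - 1) * α = β * ((α * g) % p) := by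
      apply Nat.eq_of_mul_eq_mul_right hg0
      calc (p - 1) * α * g = (p - 1) * (α * g) := by ring
        _ = _ := by rw [h1]; ring
    have h3 : β ∣ (p - 1) * α := ⟨_, h2⟩
    have h4 : β ∣ p - 1 := hcop.symm.dvd_of_dvd_mul_right h3
    obtain ⟨c, hc⟩ := h4
    exact ⟨c, by have := hp.pos; omega⟩
  have hmod := mod_of_primes hn0 hpr
  have hnn := nn_balanced hαβ n hn0 hmod
  -- the key computation
  have key : ∀ d, d ∣ n → d ≠ n → (β : ℤ) * PP n k d =
      (Nat.totient n : ℤ) * (α * Nat.totient (n / d)) := by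
    intro d hd hdn
    have hd0 : 0 < d := Nat.pos_of_dvd_of_pos hd hn0
    have htd : n / d ∣ n := Nat.div_dvd_of_dvd hd
    have htd1 : n / d ≠ 1 := by
      intro h
      have := Nat.div_mul_cancel hd
      rw [h, one_mul] at this; exact hdn this
    obtain ⟨t', ht'⟩ := hmod _ htd
    have hbt := hnn _ t' htd ht'
    rw [if_neg htd1] at hbt
    -- for e | d : quotient, remainder, count
    have hcase : ∀ e, e ∣ d → ∃ e', e = β * e' + 1 ∧ k / (n / e) = α * e' ∧
        nn (n / e) (d / e) (k % (n / e)) = nn (n / d) 1 (α * t') := by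
      intro e hed
      have he0 : 0 < e := Nat.pos_of_dvd_of_pos hed hd0
      obtain ⟨e', he'⟩ := hmod e (hed.trans hd)
      obtain ⟨s', hs'⟩ := hmod (n / e) (Nat.div_dvd_of_dvd (hed.trans hd))
      have h1 : β * g + 1 = (β * e' + 1) * (β * s' + 1) := by
        rw [← he', ← hs', Nat.mul_div_cancel' (hed.trans hd), ← hnβ]; omega
      obtain ⟨h2, h3⟩ := div_mod_of hαβ hkα h1
      rw [← hs'] at h2 h3
      refine ⟨e', he', h2, ?_⟩
      rw [h3]
      obtain ⟨δ, rfl⟩ := hed
      have hδ0 : 0 < δ := by
        rcases Nat.eq_zero_or_pos δ with h | h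
        · subst h; simp at hd0
        · exact h
      rw [Nat.mul_div_cancel_left _ he0]
      have h4 : n / e = δ * (n / (e * δ)) := by
        obtain ⟨f, rfl⟩ := hd
        rw [Nat.mul_div_cancel_left _ (by positivity), mul_assoc, Nat.mul_div_cancel_left _ he0]
      rw [h4, nn_scale hδ0]
      congr 1
      obtain ⟨δ', hδ'⟩ := hmod δ ((dvd_mul_left δ e).trans hd)
      have h5 : s' = δ * t' + δ' := by
        have : β * s' = β * (δ * t' + δ') := by
          have h6 : δ * (n / (e * δ)) = β * (δ * t' + δ') + 1 := by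
            rw [ht']
            conv_lhs => rw [hδ']
            rw [hδ']
            ring
          omega
        exact Nat.eq_of_mul_eq_mul_left hβ this
      have h7 : α * δ' < δ := by
        have := Nat.mul_le_mul_right δ' hαβ.le
        omega
      rw [h5, show α * (δ * t' + δ') = α * δ' + δ * (α * t') by ring, Nat.add_mul_div_left _ _ hδ0,
        Nat.div_eq_of_lt h7, zero_add]
    have hW0 : ∀ e, e ∣ d → e ≠ 1 → WW n k e d = 0 := by
      intro e hed he1
      obtain ⟨e', he', hq, hc⟩ := hcase e hed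
      have he0 : 0 < e := by omega
      have h1 := WW_mul (n := n) (k := k) (d := d) (e := e) he0
      rw [hc, hq] at h1
      have h2 : ((e : ℤ) - 1) * (nn (n / d) 1 (α * t') : ℤ) -
          (Nat.totient (n / d) : ℤ) * ((α * e' : ℕ) : ℤ) = 0 := by
        have h3 : (e : ℤ) - 1 = β * e' := by rw [he']; push_cast; ring
        have h4 : (β : ℤ) * (nn (n / d) 1 (α * t') : ℤ) = α * (Nat.totient (n / d) : ℤ) := by
          exact_mod_cast hbt
        rw [h3]; push_cast
        linear_combination (e' : ℤ) * h4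
      rw [h2, mul_zero] at h1
      have h5 : (e : ℤ) - 1 ≠ 0 := by
        intro h; apply he1; omega
      exact (mul_eq_zero.1 h1).resolve_left h5
    have hW1 : WW n k 1 d = (nn (n / d) 1 (α * t') : ℤ) := by
      obtain ⟨e', he', hq, hc⟩ := hcase 1 (one_dvd d)
      unfold WW
      rw [hc, Nat.div_one, Nat.div_eq_of_lt (by omega : k < n)]
      simp [AA]
    unfold PP
    rw [Finset.sum_eq_single 1]
    · rw [hW1, Nat.div_one]
      have h4 : (β : ℤ) * (nn (n / d) 1 (α * t') : ℤ) = α * (Nat.totient (n / d) : ℤ) := by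
        exact_mod_cast hbt
      linear_combination (Nat.totient n : ℤ) * h4
    · intro e he he1
      rw [hW0 e (Nat.dvd_of_mem_divisors he) he1, mul_zero]
    · intro h
      exact absurd (Nat.one_mem_divisors.2 hd0.ne') h
  intro d hd hdn
  have h1 := key d hd hdn
  have h2 := key 1 (one_dvd n) (by omega)
  rw [PP_one (by omega), Nat.div_one] at h2
  have hφ : (Nat.totient n : ℤ) ≠ 0 := by
    exact_mod_cast (Nat.totient_pos.2 hn0).ne'
  have h3 : (β : ℤ) * (Ph n k : ℤ) = Nat.totient n * α := by
    apply mul_left_cancel₀ hφ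
    linear_combination h2
  have hβz : (β : ℤ) ≠ 0 := by exact_mod_cast hβ.ne'
  apply mul_left_cancel₀ hβz
  rw [h1]
  linear_combination (-(Nat.totient (n / d) : ℤ)) * h3

/-- Sufficiency -/
theorem suff {n k : ℕ} [NeZero n] (hodd : Odd n) (hk1 : 1 ≤ k) (hkn : k + 2 ≤ n)
    (h : ∀ p, p.Prime → p ∣ n → k < p ∨ n - 1 - k < p ∨ (p - 1) * k = (n - 1) * (k % p)) :
    Const n k 0 := by
  -- reduction of the first case
  have red : ∀ k, 1 ≤ k → k + 2 ≤ n →
      (∀ p, p.Prime → p ∣ n → k < p ∨ n - 1 - k < p ∨ (p - 1) * k = (n - 1) * (k % p)) →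
      ∀ p, p.Prime → p ∣ n → k < p → Const n k 0 := by
    intro k hk1 hkn h p hp hpn hkp
    apply suff_small hk1 (by omega)
    intro p' hp' hpn'
    by_contra hle
    push Not at hle
    obtain ⟨m, hm⟩ := hpn
    have hne : p' ≠ p := by omega
    have hp'm : p' ∣ m := by
      rw [hm] at hpn'
      rcases hp'.dvd_mul.1 hpn' with h1 | h1
      · exact absurd ((Nat.prime_dvd_prime_iff_eq hp' hp).1 h1) hne
      · exact h1
    have hm0 : 0 < m := by
      rcases Nat.eq_zero_or_pos m with h0 | h0
      · subst h0; omega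
      · exact h0
    have hp'le := Nat.le_of_dvd hm0 hp'm
    have h2 := hp'.two_le
    have hnpp : p * p' ≤ n := by rw [hm]; exact Nat.mul_le_mul_left p hp'le
    have hp'3 : 3 ≤ p' := by
      rcases Nat.lt_or_ge p' 3 with h3 | h3
      · exfalso
        have h4 : p' = 2 := by omega
        rw [h4] at hpn'
        exact (Nat.not_even_iff_odd.2 hodd) (even_iff_two_dvd.2 hpn')
      · exact h3
    rcases h p' hp' hpn' with h1 | h1 | h1
    · omega
    · have h3 : p * 3 ≤ p * p' := Nat.mul_le_mul_left p hp'3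
      omega
    · have h3 : 1 ≤ k % p' := by
        rcases Nat.eq_zero_or_pos (k % p') with h4 | h4
        · rw [h4, mul_zero] at h1
          rcases Nat.mul_eq_zero.1 h1 with h5 | h5 <;> omega
        · exact h4
      have h4 : n - 1 ≤ (p' - 1) * k := by
        rw [h1]; exact Nat.le_mul_of_pos_right _ h3
      obtain ⟨a, rfl⟩ : ∃ a, p' = a + 1 := ⟨p' - 1, by omega⟩
      obtain ⟨c, rfl⟩ : ∃ c, p = k + 1 + c := ⟨p - (k + 1), by omega⟩
      rw [Nat.add_sub_cancel] at h4
      have h5 : (k + 1 + c) * (a + 1) = a * k + k + 1 + c + a + c * a := by ring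
      rw [h5] at hnpp
      omega
  by_cases hall : ∀ p, p.Prime → p ∣ n → (p - 1) * k = (n - 1) * (k % p)
  · exact suff_balanced hk1 hkn hall
  · push Not at hall
    obtain ⟨p, hp, hpn, hne⟩ := hall
    rcases h p hp hpn with h1 | h1 | h1
    · exact red k hk1 hkn h p hp hpn h1
    · rw [← const0_compl_iff hodd hk1 hkn]
      refine red (n - 1 - k) (by omega) (by omega) ?_ p hp hpn h1
      intro p' hp' hpn'
      rcases h p' hp' hpn' with h2 | h2 | h2
      · right; left; omega
      · left; exact h2
      · right; right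
        obtain ⟨m, hm⟩ := hpn'
        have hp0 := hp'.pos
        have hm0 : 0 < m := by
          rcases Nat.eq_zero_or_pos m with h0 | h0
          · subst h0; omega
          · exact h0
        -- (n-1-k) % p' = p'-1 - k % p'
        have hr := Nat.mod_lt k hp0
        have hk := Nat.mod_add_div k p'
        obtain ⟨m', rfl⟩ : ∃ m', m = m' + 1 := ⟨m - 1, by omega⟩
        have hn1 : n - 1 = (p' - 1) + p' * m' := by
          rw [hm, Nat.mul_succ]; omega
        have hq : k / p' ≤ m' := by
          by_contra hc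
          push Not at hc
          have := Nat.mul_le_mul_left p' hc
          rw [Nat.succ_eq_add_one, Nat.mul_add, mul_one] at this
          have h7 : k ≤ n - 1 := by omega
          rw [hn1] at h7
          omega
        obtain ⟨w, hw⟩ : ∃ w, m' = k / p' + w := ⟨m' - k / p', by omega⟩
        have h8 : n - 1 - k = (p' - 1 - k % p') + p' * w := by
          rw [hn1, hw, Nat.mul_add]; omega
        have h9 : (n - 1 - k) % p' = p' - 1 - k % p' := by
          rw [h8, Nat.add_mul_mod_self_left, Nat.mod_eq_of_lt (by omega)]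
        rw [h9]
        calc (p' - 1) * (n - 1 - k) = (p' - 1) * (n - 1) - (p' - 1) * k := Nat.mul_sub _ _ _
          _ = (n - 1) * (p' - 1) - (n - 1) * (k % p') := by rw [h2, mul_comm (p' - 1) (n - 1)]
          _ = (n - 1) * (p' - 1 - k % p') := (Nat.mul_sub _ _ _).symm
    · exact absurd h1 hne

end Pool.Agent.H58.SD
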