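import Mathlib
import Pool.Agent.H58.SD.F3

/-!
# Necessity
-/

set_option autoImplicit false

open Finset

namespace Pool.Agent.H58.SD

open Pool.Agent.H47.SD

/-- the defect at the prime `p`, `n = p m` -/
def vv (p m k : ℕ) : ℤ := ((m : ℤ) - 1) * ((k % p : ℕ) : ℤ) - ((p : ℤ) - 1) * ((k / p : ℕ) : ℤ)

lemma vv_iff {n p m k : ℕ} (hp : 0 < p) (hn : n = p * m) (hm : 0 < m) :
    (p - 1) * k = (n - 1) * (k % p) ↔ vv p m k = 0 := by
  have hn1 : 1 ≤ n := by rw [hn]; exact Nat.mul_pos hp hm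
  have hk : (k : ℤ) = ((k % p : ℕ) : ℤ) + p * ((k / p : ℕ) : ℤ) := by
    exact_mod_cast (Nat.mod_add_div k p).symm
  have hpz : (p : ℤ) ≠ 0 := by exact_mod_cast hp.ne'
  have hnz : (n : ℤ) = p * m := by exact_mod_cast hn
  have h1 : ((p - 1 : ℕ) : ℤ) = (p : ℤ) - 1 := by push_cast [Nat.succ_le_of_lt hp]; ring
  have h2 : ((n - 1 : ℕ) : ℤ) = (n : ℤ) - 1 := by push_cast [hn1]; ring
  have key : ((p : ℤ) - 1) * k - ((n : ℤ) - 1) * ((k % p : ℕ) : ℤ) = - (p * vv p m k) := by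
    unfold vv
    rw [hnz]
    linear_combination ((p : ℤ) - 1) * hk
  constructor
  · intro h
    have h3 : ((p - 1 : ℕ) : ℤ) * k = ((n - 1 : ℕ) : ℤ) * ((k % p : ℕ) : ℤ) := by exact_mod_cast h
    rw [h1, h2] at h3
    have h4 : (p : ℤ) * vv p m k = 0 := by linear_combination key - h3
    exact (mul_eq_zero.1 h4).resolve_left hpz
  · intro h
    rw [h] at key
    have h3 : ((p - 1 : ℕ) : ℤ) * k = ((n - 1 : ℕ) : ℤ) * ((k % p : ℕ) : ℤ) := by
      rw [h1, h2]; linear_combination key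
    exact_mod_cast h3

lemma vv_even {p m k : ℕ} (hp : Odd p) (hm : Odd m) : Even (vv p m k) := by
  unfold vv
  obtain ⟨a, rfl⟩ := hp
  obtain ⟨c, rfl⟩ := hm
  refine ⟨(c : ℤ) * ((k % (2 * a + 1) : ℕ) : ℤ) - (a : ℤ) * ((k / (2 * a + 1) : ℕ) : ℤ), ?_⟩
  push_cast; ring

lemma nn_one_of_lt {p j : ℕ} (hp : p.Prime) (hj : j < p) : nn p 1 j = j := by
  unfold nn
  have : (range j).filter (fun i => Nat.gcd p (i + 1) = 1) = range j := by
    rw [Finset.filter_eq_self]
    intro i hi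
    rw [Finset.mem_range] at hi
    rw [← Nat.coprime_iff_gcd_eq_one, Nat.Prime.coprime_iff_not_dvd hp]
    intro hd
    have := Nat.le_of_dvd (by omega) hd
    omega
  rw [this, Finset.card_range]

lemma WW_top {n p m k : ℕ} (hp : p.Prime) (hn : n = p * m) (hm : 0 < m) :
    ((m : ℤ) - 1) * WW n k m m = (-1) ^ (k / p) * (Nat.choose (m - 1) (k / p) : ℤ) * vv p m k := by
  have h1 : n / m = p := by rw [hn, Nat.mul_div_cancel _ hm]
  have h2 := WW_mul (n := n) (k := k) (d := m) (e := m) hm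
  rw [h1, Nat.div_self hm, nn_one_of_lt hp (Nat.mod_lt k hp.pos), Nat.totient_prime hp] at h2
  rw [h2]
  unfold vv
  have h3 : ((p - 1 : ℕ) : ℤ) = (p : ℤ) - 1 := by push_cast [hp.one_le]; ring
  rw [h3]

/-- (N1) -/
lemma nec_small {n k p : ℕ} [NeZero n] (hk1 : 1 ≤ k) (hkn : k < n) (hp : p.Prime) (hpn : p ∣ n)
    (hsm : k < n / p) (h : ∀ d, d ∣ n → d ≠ n → PP n k d = (Nat.totient (n / d) : ℤ) * (Ph n k : ℤ)) :
    k < p := by
  have hp0 := hp.pos
  have hne : p ≠ n := by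
    intro h1
    rw [h1, Nat.div_self (by omega)] at hsm
    omega
  have h1 := h p hpn hne
  unfold PP at h1
  rw [hp.divisors, Finset.sum_pair hp.one_lt.ne] at h1
  unfold WW at h1
  rw [Nat.div_one, Nat.div_one, Nat.div_eq_of_lt hkn, Nat.mod_eq_of_lt hkn, Nat.div_eq_of_lt hsm,
    Nat.mod_eq_of_lt hsm, Nat.div_self hp0] at h1
  simp only [AA, Finset.range_zero, Finset.sum_empty, mul_zero, pow_zero, Nat.choose_zero_right,
    Nat.cast_one, mul_one, zero_add] at h1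
  -- φ(n) nn n p k + φ(n/p) nn (n/p) 1 k = φ(n/p) Ph
  have h2 : Ph n k ≤ nn (n / p) 1 k := by
    unfold Ph nn
    apply Finset.card_le_card
    intro j hj
    rw [Finset.mem_filter] at hj ⊢
    refine ⟨hj.1, ?_⟩
    exact Nat.Coprime.coprime_dvd_left (Nat.div_dvd_of_dvd hpn) hj.2
  have hφ : 0 < Nat.totient n := Nat.totient_pos.2 (by omega)
  have h3 : Nat.totient n * nn n p k + Nat.totient (n / p) * nn (n / p) 1 k =
      Nat.totient (n / p) * Ph n k := by exact_mod_cast h1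
  have h4 := Nat.mul_le_mul_left (Nat.totient (n / p)) h2
  have h5 : Nat.totient n * nn n p k = 0 := by omega
  have h6 : nn n p k = 0 := (Nat.mul_eq_zero.1 h5).resolve_left hφ.ne'
  by_contra hc
  push Not at hc
  unfold nn at h6
  rw [Finset.card_eq_zero, Finset.filter_eq_empty_iff] at h6
  apply h6 (Finset.mem_range.2 (show p - 1 < k by omega))
  rw [show p - 1 + 1 = p by omega]
  exact Nat.gcd_eq_right hpn

lemma divisors_pm {p m : ℕ} (hp : p.Prime) (hm : m.Prime) :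
    (p * m).divisors = {1, p, m, p * m} := by
  ext x
  rw [Nat.mem_divisors]
  simp only [Finset.mem_insert, Finset.mem_singleton]
  constructor
  · rintro ⟨h, _⟩
    obtain ⟨y, z, hy, hz, rfl⟩ := (Nat.dvd_mul).1 h
    rcases (Nat.dvd_prime hp).1 hy with rfl | rfl <;> rcases (Nat.dvd_prime hm).1 hz with rfl | rfl <;>
      simp
  · have h0 : p * m ≠ 0 := Nat.mul_ne_zero hp.pos.ne' hm.pos.ne'
    rintro (rfl | rfl | rfl | rfl)
    · exact ⟨one_dvd _, h0⟩
    · exact ⟨dvd_mul_right _ _, h0⟩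
    · exact ⟨dvd_mul_left _ _, h0⟩
    · exact ⟨dvd_rfl, h0⟩

lemma nn_prime_mul {p m k : ℕ} (hp : p.Prime) (hm : 0 < m) (hk : k < p * m) :
    nn (p * m) m k = k / m := by
  rw [mul_comm p m, nn_scale hm, nn_one_of_lt hp]
  exact Nat.div_lt_of_lt_mul (by rwa [mul_comm m p])

lemma nn_self {n k : ℕ} (hk : k < n) : nn n n k = 0 := by
  unfold nn
  rw [Finset.card_eq_zero, Finset.filter_eq_empty_iff]
  intro j hj h
  rw [Finset.mem_range] at hj
  have h1 : n ∣ j + 1 := by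
    have := Nat.gcd_dvd_right n (j + 1)
    rwa [h] at this
  have := Nat.le_of_dvd (by omega) h1
  omega

/-- (N2), (N3): two prime factors -/
lemma two_aux {p m k : ℕ} (hp : p.Prime) (hm : m.Prime) (hk : k < p * m)
    (h : PP (p * m) k m = (Nat.totient (p * m / m) : ℤ) * (Ph (p * m) k : ℤ)) :
    (-1) ^ (k / p) * (Nat.choose (m - 1) (k / p) : ℤ) * vv p m k =
      ((m : ℤ) - 1) * (((k % m : ℕ) : ℤ) - ((k / p : ℕ) : ℤ)) := by
  rw [← WW_top hp rfl hm.pos]
  congr 1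
  unfold PP at h
  rw [hm.divisors, Finset.sum_pair hm.one_lt.ne, Nat.div_one, Nat.mul_div_cancel _ hm.pos] at h
  have hW1 : WW (p * m) k 1 m = ((k / m : ℕ) : ℤ) := by
    unfold WW
    rw [Nat.div_one, Nat.div_one, Nat.div_eq_of_lt hk, Nat.mod_eq_of_lt hk, nn_prime_mul hp hm.pos hk]
    simp [AA]
  rw [hW1] at h
  have hkm : (k : ℤ) = ((k % m : ℕ) : ℤ) + m * ((k / m : ℕ) : ℤ) := by
    exact_mod_cast (Nat.mod_add_div k m).symm
  have hp1 : ((Nat.totient p : ℕ) : ℤ) = (p : ℤ) - 1 := by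
    rw [Nat.totient_prime hp]; push_cast [hp.one_le]; ring
  have hm1 : ((Nat.totient m : ℕ) : ℤ) = (m : ℤ) - 1 := by
    rw [Nat.totient_prime hm]; push_cast [hm.one_le]; ring
  have hp1' : (p : ℤ) - 1 ≠ 0 := by
    have := hp.one_lt
    intro h; omega
  have hsum := nn_sum (t := p * m) (Nat.mul_pos hp.pos hm.pos) k
  rw [divisors_pm hp hm] at hsum
  have hn1 : nn (p * m) m k = k / m := nn_prime_mul hp hm.pos hk
  have hn2 : nn (p * m) p k = k / p := by
    rw [mul_comm p m]; exact nn_prime_mul hm hp.pos (by rwa [mul_comm m p])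
  have hn3 : nn (p * m) (p * m) k = 0 := nn_self hk
  have hmp : m ≠ p * m := by
    intro h
    have h1 := hp.one_lt
    have h2 := hm.pos
    nlinarith
  have hpp : p ≠ p * m := by
    intro h
    have h1 := hm.one_lt
    have h2 := hp.pos
    nlinarith
  have h1pm : 1 ≠ p * m := by
    intro h
    have h1 := hm.one_lt
    have h2 := hp.one_lt
    nlinarith
  by_cases hpm : p = m
  · subst hpm
    have hsum' : nn (p * p) 1 k + nn (p * p) p k = k := by
      have h5 : ({1, p, p, p * p} : Finset ℕ) = {1, p, p * p} := by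
        ext x; simp
      rw [h5, Finset.sum_insert (by simp [hp.one_lt.ne, h1pm]), Finset.sum_insert (by simp [hpp]),
        Finset.sum_singleton, hn3] at hsum
      omega
    have hφ : ((Nat.totient (p * p) : ℕ) : ℤ) = p * ((p : ℤ) - 1) := by
      rw [Nat.totient_mul_of_prime_of_dvd hp dvd_rfl]; push_cast; rw [hp1]
    rw [hφ, hp1] at h
    have hP : ((Ph (p * p) k : ℕ) : ℤ) = k - ((k / p : ℕ) : ℤ) := by
      unfold Ph
      rw [hn1] at hsum'
      have : ((nn (p * p) 1 k : ℕ) : ℤ) + ((k / p : ℕ) : ℤ) = k := by exact_mod_cast hsum'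
      linarith
    rw [hP] at h
    apply mul_left_cancel₀ hp1'
    linear_combination h + ((p : ℤ) - 1) * hkm
  · have hsum' : nn (p * m) 1 k + nn (p * m) p k + nn (p * m) m k = k := by
      rw [Finset.sum_insert (by simp [hp.one_lt.ne, hm.one_lt.ne, h1pm]),
        Finset.sum_insert (by simp [hpm, hpp]), Finset.sum_insert (by simp [hmp]),
        Finset.sum_singleton, hn3] at hsum
      omega
    have hcop : Nat.Coprime p m := (Nat.coprime_primes hp hm).2 hpm
    have hφ : ((Nat.totient (p * m) : ℕ) : ℤ) = ((p : ℤ) - 1) * ((m : ℤ) - 1) := by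
      rw [Nat.totient_mul hcop]; push_cast; rw [hp1, hm1]
    rw [hφ, hp1] at h
    have hP : ((Ph (p * m) k : ℕ) : ℤ) = k - ((k / p : ℕ) : ℤ) - ((k / m : ℕ) : ℤ) := by
      unfold Ph
      rw [hn1, hn2] at hsum'
      have : ((nn (p * m) 1 k : ℕ) : ℤ) + ((k / p : ℕ) : ℤ) + ((k / m : ℕ) : ℤ) = k := by
        exact_mod_cast hsum'
      linarith
    rw [hP] at h
    apply mul_left_cancel₀ hp1'
    linear_combination h + ((p : ℤ) - 1) * hkm

lemma choose_ge_self {N : ℕ} : ∀ {q : ℕ}, 1 ≤ q → q + 1 ≤ N → N ≤ Nat.choose N q := by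
  induction N with
  | zero => intro q h1 h2; omega
  | succ N ih =>
    intro q h1 h2
    obtain ⟨c, rfl⟩ : ∃ c, q = c + 1 := ⟨q - 1, by omega⟩
    rcases Nat.eq_or_lt_of_le h2 with h3 | h3
    · have : N = c + 1 := by omega
      rw [this, Nat.choose_succ_self_right]
    · rw [Nat.choose_succ_succ']
      have h4 := ih (q := c + 1) (by omega) (by omega)
      have h5 : 0 < Nat.choose N c := Nat.choose_pos (by omega)
      omega

lemma abs_aux {C N v Y s : ℤ} (hs : |s| = 1) (hN : 0 < N) (hC : N ≤ C) (h : s * C * v = N * Y) :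
    |v| ≤ |Y| := by
  have h1 : |s * C * v| = |N * Y| := by rw [h]
  rw [abs_mul, abs_mul, abs_mul, hs, one_mul, abs_of_pos hN, abs_of_nonneg (by linarith)] at h1
  have h2 : N * |v| ≤ C * |v| := mul_le_mul_of_nonneg_right hC (abs_nonneg v)
  rw [h1] at h2
  exact le_of_mul_le_mul_left h2 hN

/-- two prime factors, middle range -/
lemma nec_two {p m k : ℕ} (hp : p.Prime) (hm : m.Prime) (hp3 : 3 ≤ p) (hm3 : 3 ≤ m)
    (h1 : p ≤ k) (h2 : m ≤ k) (h3 : k + 1 + p ≤ p * m) (h4 : k + 1 + m ≤ p * m)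
    (hc1 : PP (p * m) k m = (Nat.totient (p * m / m) : ℤ) * (Ph (p * m) k : ℤ))
    (hc2 : PP (p * m) k p = (Nat.totient (p * m / p) : ℤ) * (Ph (p * m) k : ℤ)) :
    vv p m k = 0 := by
  have e1 := two_aux hp hm (by omega) hc1
  have e2 : (-1) ^ (k / m) * (Nat.choose (p - 1) (k / m) : ℤ) * vv m p k =
      ((p : ℤ) - 1) * (((k % p : ℕ) : ℤ) - ((k / m : ℕ) : ℤ)) := by
    rw [mul_comm p m] at hc2
    exact two_aux hm hp (by rw [mul_comm m p]; omega) hc2
  have hkp : (k : ℤ) = ((k % p : ℕ) : ℤ) + p * ((k / p : ℕ) : ℤ) := by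
    exact_mod_cast (Nat.mod_add_div k p).symm
  have hkm : (k : ℤ) = ((k % m : ℕ) : ℤ) + m * ((k / m : ℕ) : ℤ) := by
    exact_mod_cast (Nat.mod_add_div k m).symm
  have hq1 : 1 ≤ k / p := Nat.div_pos h1 hp.pos
  have hq2 : 1 ≤ k / m := Nat.div_pos h2 hm.pos
  have hq3 : k / p + 1 ≤ m - 1 := by
    have : k / p < m - 1 := by
      apply Nat.div_lt_of_lt_mul
      rw [Nat.mul_sub, mul_one]; omega
    omega
  have hq4 : k / m + 1 ≤ p - 1 := by
    have : k / m < p - 1 := by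
      apply Nat.div_lt_of_lt_mul
      rw [Nat.mul_sub, mul_one, mul_comm m p]; omega
    omega
  have hC1 := choose_ge_self hq1 hq3
  have hC2 := choose_ge_self hq2 hq4
  have hm1 : ((m - 1 : ℕ) : ℤ) = (m : ℤ) - 1 := by push_cast [hm.one_le]; ring
  have hp1 : ((p - 1 : ℕ) : ℤ) = (p : ℤ) - 1 := by push_cast [hp.one_le]; ring
  have hs : ∀ j : ℕ, |(-1 : ℤ) ^ j| = 1 := by intro j; rw [abs_pow]; simp
  have a1 := abs_aux (hs (k / p)) (N := (m : ℤ) - 1) (by omega) (by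
    rw [← hm1]; exact_mod_cast hC1) e1
  have a2 := abs_aux (hs (k / m)) (N := (p : ℤ) - 1) (by omega) (by
    rw [← hp1]; exact_mod_cast hC2) e2
  set X : ℤ := ((k % p : ℕ) : ℤ) - ((k / m : ℕ) : ℤ) with hX
  set Y : ℤ := ((k % m : ℕ) : ℤ) - ((k / p : ℕ) : ℤ) with hY
  have v1 : vv p m k = m * X - Y := by
    unfold vv; rw [hX, hY]; linear_combination hkp - hkm
  have v2 : vv m p k = p * Y - X := by
    unfold vv; rw [hX, hY]; linear_combination hkm - hkp
  rw [v1] at a1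
  rw [v2] at a2
  have b1 : |(m : ℤ) * X| ≤ 2 * |Y| := by
    have : (m : ℤ) * X = (m * X - Y) + Y := by ring
    rw [this]
    have := abs_add_le ((m : ℤ) * X - Y) Y
    linarith
  have b2 : |(p : ℤ) * Y| ≤ 2 * |X| := by
    have : (p : ℤ) * Y = (p * Y - X) + X := by ring
    rw [this]
    have := abs_add_le ((p : ℤ) * Y - X) X
    linarith
  rw [abs_mul] at b1 b2
  have c1 : |(m : ℤ)| = m := abs_of_nonneg (by positivity)
  have c2 : |(p : ℤ)| = p := abs_of_nonneg (by positivity)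
  rw [c1] at b1
  rw [c2] at b2
  have hm3' : (3 : ℤ) ≤ m := by exact_mod_cast hm3
  have hp3' : (3 : ℤ) ≤ p := by exact_mod_cast hp3
  have d1 : 3 * |X| ≤ 2 * |Y| := le_trans (mul_le_mul_of_nonneg_right hm3' (abs_nonneg X)) b1
  have d2 : 3 * |Y| ≤ 2 * |X| := le_trans (mul_le_mul_of_nonneg_right hp3' (abs_nonneg Y)) b2
  have e3 := abs_nonneg X
  have e4 := abs_nonneg Y
  have hX0 : |X| = 0 := by linarith
  have hY0 : |Y| = 0 := by linarith
  rw [abs_eq_zero] at hX0 hY0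
  rw [v1, hX0, hY0]; ring

end Pool.Agent.H58.SD
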