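import Mathlib
import Pool.Agent.H58.SD.F4

/-!
# Necessity: at least three prime factors; the final criterion for sum `0`
-/

set_option autoImplicit false

open Finset

namespace Pool.Agent.H58.SD

open Pool.Agent.H47.SD

lemma choose_mid {M : ℕ} : ∀ {a t : ℕ}, a ≤ t → t + a ≤ M → Nat.choose M a ≤ Nat.choose M t := by
  induction M with
  | zero => intro a t h1 h2; have : t = 0 := by omega
            have : a = 0 := by omega
            subst_vars; exact le_rfl
  | succ M ih =>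
    intro a t h1 h2
    rcases Nat.eq_or_lt_of_le h1 with h3 | h3
    · rw [h3]
    rcases Nat.eq_or_lt_of_le h2 with h4 | h4
    · rw [← Nat.choose_symm_of_eq_add (show M + 1 = t + a by omega)]
    rcases Nat.eq_zero_or_pos a with h5 | h5
    · rw [h5, Nat.choose_zero_right]
      exact Nat.choose_pos (by omega)
    obtain ⟨a', rfl⟩ : ∃ a', a = a' + 1 := ⟨a - 1, by omega⟩
    obtain ⟨t', rfl⟩ : ∃ t', t = t' + 1 := ⟨t - 1, by omega⟩
    rw [Nat.choose_succ_succ', Nat.choose_succ_succ']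
    exact Nat.add_le_add (ih (by omega) (by omega)) (ih (by omega) (by omega))

lemma vander (a c i j : ℕ) : Nat.choose a i * Nat.choose c j ≤ Nat.choose (a + c) (i + j) := by
  rw [Nat.add_choose_eq]
  exact Finset.single_le_sum (f := fun ij : ℕ × ℕ => Nat.choose a ij.1 * Nat.choose c ij.2)
    (fun _ _ => Nat.zero_le _) (a := (i, j)) (by rw [Finset.HasAntidiagonal.mem_antidiagonal])

lemma nn_le {s δ r : ℕ} (hδ : δ ∣ s) (hr : r ≤ s) : nn s δ r ≤ Nat.totient (s / δ) := by
  rw [← card_block hδ 1]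
  unfold nn
  apply Finset.card_le_card
  intro j hj
  rw [Finset.mem_filter, Finset.mem_range] at hj ⊢
  exact ⟨by omega, by rw [add_comm 1 j]; exact hj.2⟩

/-- bound for one weight -/
lemma WW_bound {n p m k e : ℕ} (hp : p.Prime) (hn : n = p * m) (hm : 0 < m) (hk : k < n)
    (he : e ∣ m) : |WW n k e m| ≤ ((p : ℤ) - 1) * (Nat.choose (e - 1) (k / (n / e)) : ℤ) := by
  have he0 : 0 < e := Nat.pos_of_dvd_of_pos he hm
  have hn0 : 0 < n := by omega
  have hnm : n / m = p := by rw [hn, Nat.mul_div_cancel _ hm]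
  have hφ : ((Nat.totient (n / m) : ℕ) : ℤ) = (p : ℤ) - 1 := by
    rw [hnm, Nat.totient_prime hp]; push_cast [hp.one_le]; ring
  have hen : e ∣ n := he.trans (by rw [hn]; exact dvd_mul_left _ _)
  have hs0 : 0 < n / e := Nat.div_pos (Nat.le_of_dvd hn0 hen) he0
  have hδ : m / e ∣ n / e := Nat.div_dvd_div he (by rw [hn]; exact dvd_mul_left _ _)
  have hquot : n / e / (m / e) = n / m := by
    obtain ⟨c, rfl⟩ := he
    have hc0 : 0 < c := by
      rcases Nat.eq_zero_or_pos c with h | h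
      · subst h; simp at hm
      · exact h
    rw [Nat.mul_div_cancel_left _ he0, Nat.div_div_eq_div_mul]
  have hnn := nn_le (r := k % (n / e)) hδ (Nat.mod_lt k hs0).le
  rw [hquot] at hnn
  have hnn' : (nn (n / e) (m / e) (k % (n / e)) : ℤ) ≤ (p : ℤ) - 1 := by
    rw [← hφ]; exact_mod_cast hnn
  have hqe : k / (n / e) ≤ e - 1 := by
    have : k / (n / e) < e := by
      apply Nat.div_lt_of_lt_mul
      rw [mul_comm, Nat.mul_div_cancel' hen]; exact hk
    omega
  rcases Nat.eq_or_lt_of_le he0 with h1 | h1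
  · -- e = 1
    have he1 : e = 1 := h1.symm
    subst he1
    unfold WW
    rw [Nat.div_one, Nat.div_one, Nat.div_eq_of_lt hk, Nat.mod_eq_of_lt hk]
    rw [Nat.div_one, Nat.div_one, Nat.mod_eq_of_lt hk] at hnn'
    simp only [AA, Finset.range_zero, Finset.sum_empty, mul_zero, pow_zero, Nat.choose_zero_right,
      Nat.cast_one, mul_one, zero_add]
    rw [abs_of_nonneg (by positivity)]
    exact hnn'
  · have h2 := WW_mul (n := n) (k := k) (d := m) (e := e) he0
    rw [hφ] at h2
    have hez : (0 : ℤ) < (e : ℤ) - 1 := by omega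
    have hpz : (0 : ℤ) ≤ (p : ℤ) - 1 := by have := hp.one_lt; omega
    have hqz : ((k / (n / e) : ℕ) : ℤ) ≤ (e : ℤ) - 1 := by omega
    have hq0 : (0 : ℤ) ≤ ((k / (n / e) : ℕ) : ℤ) := by positivity
    have hn0' : (0 : ℤ) ≤ (nn (n / e) (m / e) (k % (n / e)) : ℤ) := by positivity
    have h3 : |((e : ℤ) - 1) * (nn (n / e) (m / e) (k % (n / e)) : ℤ) -
        ((p : ℤ) - 1) * ((k / (n / e) : ℕ) : ℤ)| ≤ ((e : ℤ) - 1) * ((p : ℤ) - 1) := by
      rw [abs_le]
      constructor
      · have a1 : ((p : ℤ) - 1) * ((k / (n / e) : ℕ) : ℤ) ≤ ((p : ℤ) - 1) * ((e : ℤ) - 1) :=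
          mul_le_mul_of_nonneg_left hqz hpz
        have a2 := mul_nonneg hez.le hn0'
        linarith
      · have a1 := mul_le_mul_of_nonneg_left hnn' hez.le
        have a2 := mul_nonneg hpz hq0
        linarith
    have h4 := congrArg abs h2
    rw [abs_mul, abs_mul, abs_mul, abs_pow, abs_neg, abs_one, one_pow, one_mul, abs_of_pos hez,
      abs_of_nonneg (by positivity : (0 : ℤ) ≤ (Nat.choose (e - 1) (k / (n / e)) : ℤ))] at h4
    have h5 : ((e : ℤ) - 1) * |WW n k e m| ≤
        ((e : ℤ) - 1) * (((p : ℤ) - 1) * (Nat.choose (e - 1) (k / (n / e)) : ℤ)) := by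
      rw [h4]
      have := mul_le_mul_of_nonneg_left h3
        (by positivity : (0 : ℤ) ≤ (Nat.choose (e - 1) (k / (n / e)) : ℤ))
      linarith
    exact le_of_mul_le_mul_left h5 hez

/-- domination -/
lemma dom {n p m k c : ℕ} [NeZero n] (hp : p.Prime) (hn : n = p * m) (hm1 : 1 < m)
    (hodd : Odd n) (hc : 3 ≤ c) (he : ∀ e, e ∣ m → e ≠ m → c * e ≤ m) (hq5 : 5 ≤ k / p)
    (hk2 : 2 * k + 1 ≤ n) (hroom : (m - 1) / 2 + 4 ≤ m - m / c)
    (hnum : 3 * (m - 1) * n < 4 * Nat.choose (m - m / c) 4)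
    (hcond : PP n k m = (Nat.totient (n / m) : ℤ) * (Ph n k : ℤ)) : vv p m k = 0 := by
  have hm0 : 0 < m := by omega
  have hp0 := hp.pos
  have hn0 : 0 < n := NeZero.pos n
  have hkn : k < n := by omega
  have hnm : n / m = p := by rw [hn, Nat.mul_div_cancel _ hm0]
  have hφ : ((Nat.totient (n / m) : ℕ) : ℤ) = (p : ℤ) - 1 := by
    rw [hnm, Nat.totient_prime hp]; push_cast [hp.one_le]; ring
  have hmn : m ∣ n := by rw [hn]; exact dvd_mul_left _ _
  set q := k / p with hq
  set L := Nat.choose (m - m / c) 4 with hL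
  have hqm : 2 * q + 1 ≤ m := by
    have h1 : p * q ≤ k := Nat.mul_div_le k p
    have h2 : p * (2 * q) < p * m := by
      rw [← hn]
      calc p * (2 * q) = 2 * (p * q) := by ring
        _ ≤ 2 * k := Nat.mul_le_mul_left 2 h1
        _ < n := by omega
    have := Nat.lt_of_mul_lt_mul_left h2
    omega
  -- comparison of binomial coefficients
  have hbin : ∀ e, e ∣ m → e ≠ m → L * Nat.choose (e - 1) (k / (n / e)) ≤ Nat.choose (m - 1) q := by
    intro e hem hne
    have he0 : 0 < e := Nat.pos_of_dvd_of_pos hem hm0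
    have hce := he e hem hne
    have hem' : e ≤ m / c := by
      rw [Nat.le_div_iff_mul_le (by omega), mul_comm]; exact hce
    have hlt : e < m := by
      have : 3 * e ≤ c * e := Nat.mul_le_mul_right e hc
      omega
    have h1 : k / (n / e) = q / (m / e) := by
      have h2 : n / e = p * (m / e) := by
        rw [hn, Nat.mul_div_assoc _ hem]
      rw [h2, ← Nat.div_div_eq_div_mul]
    have h3 : c ≤ m / e := by
      rw [Nat.le_div_iff_mul_le he0]; exact hce
    have h4 : q / (m / e) ≤ q / 3 := Nat.div_le_div_left (by omega) (by norm_num)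
    have h5 := Nat.div_le_self q (m / e)
    rw [h1]
    generalize q / (m / e) = s' at h4 h5 ⊢
    have h6 : 4 ≤ q - s' := by omega
    have h7 : (q - s') + 4 ≤ m - e := by omega
    have h8 : L ≤ Nat.choose (m - e) (q - s') := by
      rw [hL]
      exact le_trans (Nat.choose_le_choose 4 (by omega)) (choose_mid h6 h7)
    calc L * Nat.choose (e - 1) s' ≤
        Nat.choose (m - e) (q - s') * Nat.choose (e - 1) s' :=
          Nat.mul_le_mul_right _ h8
      _ = Nat.choose (e - 1) s' * Nat.choose (m - e) (q - s') := mul_comm _ _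
      _ ≤ Nat.choose (e - 1 + (m - e)) (s' + (q - s')) := vander _ _ _ _
      _ = Nat.choose (m - 1) q := by congr 1 <;> omega
  have hL1 : L ≤ Nat.choose (m - 1) q := by
    have h1 := hbin 1 (one_dvd m) (by omega)
    rw [Nat.div_one, Nat.div_eq_of_lt hkn, Nat.choose_zero_right, mul_one] at h1
    exact h1
  have hpz : (0 : ℤ) < (p : ℤ) - 1 := by have := hp.one_lt; omega
  set C : ℤ := (Nat.choose (m - 1) q : ℤ) with hC
  have hCpos : 0 < C := by
    rw [hC]; exact_mod_cast Nat.choose_pos (by omega : q ≤ m - 1)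
  -- the sum over the other divisors
  have hsplit : PP n k m = ((p : ℤ) - 1) * WW n k m m +
      ∑ e ∈ m.divisors.erase m, (Nat.totient (n / e) : ℤ) * WW n k e m := by
    unfold PP
    rw [← Finset.add_sum_erase _ _ (Nat.mem_divisors_self m hm0.ne'), hφ]
  have hother : (L : ℤ) * |∑ e ∈ m.divisors.erase m, (Nat.totient (n / e) : ℤ) * WW n k e m| ≤
      ((p : ℤ) - 1) * (C * n) := by
    have h1 : |∑ e ∈ m.divisors.erase m, (Nat.totient (n / e) : ℤ) * WW n k e m| ≤
        ∑ e ∈ m.divisors.erase m, (Nat.totient (n / e) : ℤ) * |WW n k e m| := by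
      refine le_trans (Finset.abs_sum_le_sum_abs _ _) (le_of_eq ?_)
      refine Finset.sum_congr rfl fun e _ => ?_
      rw [abs_mul, abs_of_nonneg (by positivity : (0 : ℤ) ≤ (Nat.totient (n / e) : ℤ))]
    have h2 : (L : ℤ) * ∑ e ∈ m.divisors.erase m, (Nat.totient (n / e) : ℤ) * |WW n k e m| ≤
        ∑ e ∈ m.divisors.erase m, (Nat.totient (n / e) : ℤ) * (((p : ℤ) - 1) * C) := by
      rw [Finset.mul_sum]
      refine Finset.sum_le_sum fun e hem => ?_
      rw [Finset.mem_erase] at hem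
      have hem' := Nat.dvd_of_mem_divisors hem.2
      have h3 := WW_bound hp hn hm0 hkn hem'
      have h4 : (L : ℤ) * (Nat.choose (e - 1) (k / (n / e)) : ℤ) ≤ C := by
        rw [hC]; exact_mod_cast hbin e hem' hem.1
      have h5 : (L : ℤ) * |WW n k e m| ≤ ((p : ℤ) - 1) * C := by
        calc (L : ℤ) * |WW n k e m| ≤ L * (((p : ℤ) - 1) * (Nat.choose (e - 1) (k / (n / e)) : ℤ)) :=
              mul_le_mul_of_nonneg_left h3 (by positivity)
          _ = ((p : ℤ) - 1) * (L * (Nat.choose (e - 1) (k / (n / e)) : ℤ)) := by ring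
          _ ≤ ((p : ℤ) - 1) * C := mul_le_mul_of_nonneg_left h4 hpz.le
      calc (L : ℤ) * ((Nat.totient (n / e) : ℤ) * |WW n k e m|) =
            (Nat.totient (n / e) : ℤ) * (L * |WW n k e m|) := by ring
        _ ≤ (Nat.totient (n / e) : ℤ) * (((p : ℤ) - 1) * C) :=
            mul_le_mul_of_nonneg_left h5 (by positivity)
    have h6 : ∑ e ∈ m.divisors.erase m, (Nat.totient (n / e) : ℤ) ≤ n := by
      have h7 : ∑ e ∈ m.divisors.erase m, Nat.totient (n / e) ≤ n := by
        calc ∑ e ∈ m.divisors.erase m, Nat.totient (n / e) ≤ ∑ e ∈ n.divisors, Nat.totient (n / e) := by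
              apply Finset.sum_le_sum_of_subset
              intro e hem
              exact Nat.divisors_subset_of_dvd hn0.ne' hmn (Finset.mem_of_mem_erase hem)
          _ = ∑ e ∈ n.divisors, Nat.totient e := Nat.sum_div_divisors n Nat.totient
          _ = n := Nat.sum_totient n
      exact_mod_cast h7
    rw [← Finset.sum_mul] at h2
    have h8 : (∑ e ∈ m.divisors.erase m, (Nat.totient (n / e) : ℤ)) * (((p : ℤ) - 1) * C) ≤
        n * (((p : ℤ) - 1) * C) := mul_le_mul_of_nonneg_right h6 (by positivity)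
    have h9 := mul_le_mul_of_nonneg_left h1 (by positivity : (0 : ℤ) ≤ (L : ℤ))
    linarith
  rw [hsplit, hφ] at hcond
  set R := ∑ e ∈ m.divisors.erase m, (Nat.totient (n / e) : ℤ) * WW n k e m with hR
  -- (p-1) |WW| ≤ (p-1) Ph + |R|
  have h1 : ((p : ℤ) - 1) * |WW n k m m| ≤ ((p : ℤ) - 1) * (Ph n k : ℤ) + |R| := by
    have h2 : ((p : ℤ) - 1) * WW n k m m = ((p : ℤ) - 1) * (Ph n k : ℤ) - R := by
      linarith
    have h3 := congrArg abs h2
    rw [abs_mul, abs_of_pos hpz] at h3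
    rw [h3]
    have h4 := abs_sub (((p : ℤ) - 1) * (Ph n k : ℤ)) R
    rw [abs_of_nonneg (by positivity : (0 : ℤ) ≤ ((p : ℤ) - 1) * (Ph n k : ℤ))] at h4
    exact h4
  have hPh : 2 * (Ph n k : ℤ) ≤ n := by
    have h2 : Ph n k ≤ k := by
      unfold Ph nn
      refine le_trans (Finset.card_filter_le _ _) ?_
      rw [Finset.card_range]
    have h3 : 2 * Ph n k ≤ n := by omega
    exact_mod_cast h3
  have h2 : 2 * ((L : ℤ) * |WW n k m m|) ≤ 3 * (C * n) := by
    have h3 : (L : ℤ) * (((p : ℤ) - 1) * |WW n k m m|) ≤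
        L * (((p : ℤ) - 1) * (Ph n k : ℤ) + |R|) := mul_le_mul_of_nonneg_left h1 (by positivity)
    have h4 : (L : ℤ) * (2 * (Ph n k : ℤ)) ≤ C * n := by
      have h5 : (L : ℤ) ≤ C := by rw [hC]; exact_mod_cast hL1
      calc (L : ℤ) * (2 * (Ph n k : ℤ)) ≤ C * (2 * (Ph n k : ℤ)) :=
            mul_le_mul_of_nonneg_right h5 (by positivity)
        _ ≤ C * n := mul_le_mul_of_nonneg_left hPh hCpos.le
    have h6 := mul_le_mul_of_nonneg_left h4 hpz.le
    have h7 : ((p : ℤ) - 1) * (2 * ((L : ℤ) * |WW n k m m|)) ≤ ((p : ℤ) - 1) * (3 * (C * n)) := by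
      nlinarith
    exact le_of_mul_le_mul_left h7 hpz
  have htop := WW_top (k := k) hp hn hm0
  have h3 := congrArg abs htop
  have hmz : (0 : ℤ) < (m : ℤ) - 1 := by omega
  rw [abs_mul, abs_mul, abs_mul, abs_pow, abs_neg, abs_one, one_pow, one_mul, abs_of_pos hmz,
    ← hq, ← hC, abs_of_pos hCpos] at h3
  -- 2 L |vv| ≤ 3 n (m-1)
  have h4 : 2 * ((L : ℤ) * |vv p m k|) ≤ 3 * (((m : ℤ) - 1) * n) := by
    have h5 : C * (2 * ((L : ℤ) * |vv p m k|)) ≤ C * (3 * (((m : ℤ) - 1) * n)) := by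
      calc C * (2 * ((L : ℤ) * |vv p m k|)) = 2 * (L * (C * |vv p m k|)) := by ring
        _ = 2 * (L * (((m : ℤ) - 1) * |WW n k m m|)) := by rw [h3]
        _ = ((m : ℤ) - 1) * (2 * (L * |WW n k m m|)) := by ring
        _ ≤ ((m : ℤ) - 1) * (3 * (C * n)) := mul_le_mul_of_nonneg_left h2 hmz.le
        _ = C * (3 * (((m : ℤ) - 1) * n)) := by ring
    exact le_of_mul_le_mul_left h5 hCpos
  by_contra hv
  have hodd' : Odd p ∧ Odd m := by rw [hn, Nat.odd_mul] at hodd; exact hodd
  obtain ⟨w, hw⟩ := vv_even (k := k) hodd'.1 hodd'.2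
  have h6 : 2 ≤ |vv p m k| := by
    rcases lt_trichotomy (vv p m k) 0 with h7 | h7 | h7
    · rw [abs_of_neg h7]; omega
    · exact absurd h7 hv
    · rw [abs_of_pos h7]; omega
  have h7 : (3 : ℤ) * (((m : ℤ) - 1) * n) < 4 * L := by
    have h8 : ((3 * (m - 1) * n : ℕ) : ℤ) < ((4 * L : ℕ) : ℤ) := by exact_mod_cast hnum
    push_cast [hm1.le] at h8
    linarith
  have h8 : (L : ℤ) * 2 ≤ L * |vv p m k| := mul_le_mul_of_nonneg_left h6 (by positivity)
  linarith

end Pool.Agent.H58.SD
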