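import Mathlib
import Pool.Agent.H58.SD.F5

/-!
# The criterion for sum `0`, `n` odd
-/

set_option autoImplicit false

open Finset

namespace Pool.Agent.H58.SD

open Pool.Agent.H47.SD

/-- the condition at `p` is symmetric under complements -/
lemma bal_compl {n k p : ℕ} (hk : k + 1 ≤ n) (hp : 0 < p) (hpn : p ∣ n)
    (h : (p - 1) * k = (n - 1) * (k % p)) :
    (p - 1) * (n - 1 - k) = (n - 1) * ((n - 1 - k) % p) := by
  obtain ⟨m, hm⟩ := hpn
  have hm0 : 0 < m := by
    rcases Nat.eq_zero_or_pos m with h0 | h0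
    · subst h0; omega
    · exact h0
  have hr := Nat.mod_lt k hp
  have hk' := Nat.mod_add_div k p
  obtain ⟨m', rfl⟩ : ∃ m', m = m' + 1 := ⟨m - 1, by omega⟩
  have hn1 : n - 1 = (p - 1) + p * m' := by
    rw [hm, Nat.mul_succ]; omega
  have hq : k / p ≤ m' := by
    by_contra hc
    push Not at hc
    have := Nat.mul_le_mul_left p hc
    rw [Nat.succ_eq_add_one, Nat.mul_add, mul_one] at this
    have h7 : k ≤ n - 1 := by omega
    rw [hn1] at h7
    omega
  obtain ⟨w, hw⟩ : ∃ w, m' = k / p + w := ⟨m' - k / p, by omega⟩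
  have h8 : n - 1 - k = (p - 1 - k % p) + p * w := by
    rw [hn1, hw, Nat.mul_add]; omega
  have h9 : (n - 1 - k) % p = p - 1 - k % p := by
    rw [h8, Nat.add_mul_mod_self_left, Nat.mod_eq_of_lt (by omega)]
  rw [h9]
  calc (p - 1) * (n - 1 - k) = (p - 1) * (n - 1) - (p - 1) * k := Nat.mul_sub _ _ _
    _ = (n - 1) * (p - 1) - (n - 1) * (k % p) := by rw [h, mul_comm (p - 1) (n - 1)]
    _ = (n - 1) * (p - 1 - k % p) := (Nat.mul_sub _ _ _).symm

/-- one prime from the others -/
lemma bal_of_others {n k p m : ℕ} (hk1 : 1 ≤ k) (hkn : k + 2 ≤ n) (hp : p.Prime) (hn : n = p * m)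
    (h : ∀ p', p'.Prime → p' ∣ m → (p' - 1) * k = (n - 1) * (k % p')) :
    (p - 1) * k = (n - 1) * (k % p) := by
  have hp0 := hp.pos
  have hm0 : 0 < m := by
    rcases Nat.eq_zero_or_pos m with h0 | h0
    · subst h0; omega
    · exact h0
  obtain ⟨g, α, β, hg0, hcop, hkα, hnβ⟩ : ∃ g α β, 0 < g ∧ Nat.Coprime α β ∧ k = α * g ∧
      n - 1 = β * g := by
    have hg : 0 < Nat.gcd k (n - 1) := Nat.gcd_pos_of_pos_left _ hk1
    obtain ⟨g, α, β, h1, h2, h3, h4⟩ := Nat.exists_coprime' hg
    exact ⟨g, α, β, h1, h2, h3, h4⟩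
  have hαβ : α < β := by
    have : α * g < β * g := by rw [← hkα, ← hnβ]; omega
    exact Nat.lt_of_mul_lt_mul_right this
  have hβ : 0 < β := by omega
  have hpr : ∀ p', p'.Prime → p' ∣ m → ∃ c, p' = β * c + 1 := by
    intro p' hp' hpn
    have h1 := h p' hp' hpn
    rw [hkα, hnβ] at h1
    have h2 : (p' - 1) * α = β * ((α * g) % p') := by
      apply Nat.eq_of_mul_eq_mul_right hg0
      calc (p' - 1) * α * g = (p' - 1) * (α * g) := by ring
        _ = _ := by rw [h1]; ring
    have h3 : β ∣ (p' - 1) * α := ⟨_, h2⟩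
    have h4 : β ∣ p' - 1 := hcop.symm.dvd_of_dvd_mul_right h3
    obtain ⟨c, hc⟩ := h4
    exact ⟨c, by have := hp'.pos; omega⟩
  obtain ⟨m'', hm''⟩ := mod_of_primes hm0 hpr m dvd_rfl
  have h1 : p * m = β * g + 1 := by rw [← hn, ← hnβ]; omega
  have h2 : p + β * (p * m'') = β * g + 1 := by rw [← h1, hm'']; ring
  have h3 : p * m'' ≤ g := by
    by_contra hc
    push Not at hc
    have := Nat.mul_le_mul_left β hc
    rw [Nat.succ_eq_add_one, Nat.mul_add, mul_one] at this
    have := hp.two_le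
    omega
  obtain ⟨c, hc⟩ : ∃ c, g = p * m'' + c := ⟨g - p * m'', by omega⟩
  have hpc : p = β * c + 1 := by
    have : β * g = β * (p * m'') + β * c := by rw [hc]; ring
    omega
  have h4 : β * g + 1 = (β * m'' + 1) * (β * c + 1) := by
    rw [← h1, ← hpc, ← hm'']; ring
  obtain ⟨_, h5⟩ := div_mod_of hαβ hkα h4
  rw [← hpc] at h5
  rw [h5, hnβ, hkα, hpc, Nat.add_sub_cancel]
  ring

lemma fin27 : ∀ k ∈ Finset.Icc 9 12, PP 27 k 9 ≠ (Nat.totient (27 / 9) : ℤ) * (Ph 27 k : ℤ) := by
  decide +kernel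

lemma fin45 : ∀ k ∈ Finset.Icc 15 21, PP 45 k 15 ≠ (Nat.totient (45 / 15) : ℤ) * (Ph 45 k : ℤ) := by
  decide +kernel

lemma numA {M m n : ℕ} (hM : 20 ≤ M) (h1 : 4 * m ≤ 5 * M) (h2 : 5 * n ≤ m * m) :
    18 * (m - 1) * n < M * (M - 1) * (M - 2) * (M - 3) := by
  obtain ⟨x, rfl⟩ : ∃ x, M = 20 + x := ⟨M - 20, by omega⟩
  have h3 : 18 * (m - 1) * n ≤ 18 * m * n := by
    apply Nat.mul_le_mul_right; omega
  rw [show 20 + x - 1 = 19 + x by omega, show 20 + x - 2 = 18 + x by omega,
    show 20 + x - 3 = 17 + x by omega]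
  have h4 : 320 * (18 * m * n) ≤ 18 * 64 * (m * (m * m)) := by nlinarith
  have h5 : 64 * (m * (m * m)) ≤ 125 * ((20 + x) * ((20 + x) * (20 + x))) := by
    have := Nat.mul_le_mul h1 (Nat.mul_le_mul h1 h1)
    nlinarith
  nlinarith [sq_nonneg x, Nat.zero_le (x * x * x), Nat.zero_le (x * x * x * x)]

lemma numB {M m : ℕ} (hM : 14 ≤ M) (h1 : 2 * m ≤ 3 * M) (hm : 1 ≤ m) :
    18 * (m - 1) * (3 * m) < M * (M - 1) * (M - 2) * (M - 3) := by
  obtain ⟨x, rfl⟩ : ∃ x, M = 14 + x := ⟨M - 14, by omega⟩
  obtain ⟨y, rfl⟩ : ∃ y, m = y + 1 := ⟨m - 1, by omega⟩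
  rw [show 14 + x - 1 = 13 + x by omega, show 14 + x - 2 = 12 + x by omega,
    show 14 + x - 3 = 11 + x by omega, Nat.add_sub_cancel]
  have h3 : 2 * (y + 1) * (2 * y) ≤ (3 * (14 + x)) * (3 * (14 + x) - 2) := by
    apply Nat.mul_le_mul <;> omega
  have h4 : 3 * (14 + x) - 2 = 40 + 3 * x := by omega
  rw [h4] at h3
  nlinarith [sq_nonneg x, Nat.zero_le (x * x * x), Nat.zero_le (x * x * x * x)]

lemma choose_four (M : ℕ) : 24 * Nat.choose M 4 = M * (M - 1) * (M - 2) * (M - 3) := by
  have h := Nat.descFactorial_eq_factorial_mul_choose M 4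
  have h2 : Nat.factorial 4 = 24 := by decide
  rw [h2] at h
  rw [← h]
  simp only [Nat.descFactorial]
  ring_nf
  simp [mul_comm]

/-- large smallest prime factor: all primes `p` with `5 p ≤ n / p` are balanced -/
lemma dom5 {n p m k : ℕ} [NeZero n] (hodd : Odd n) (hp : p.Prime) (hn : n = p * m) (hm1 : m ≠ 1)
    (hmp : ¬ m.Prime) (h5 : ∀ d, d ∣ n → d ≠ 1 → 5 ≤ d) (h5p : 5 * p ≤ m)
    (hC : ∀ d, d ∣ n → d ≠ n → PP n k d = (Nat.totient (n / d) : ℤ) * (Ph n k : ℤ))
    (hk : n / n.minFac ≤ k) (hk2 : 2 * k + 1 ≤ n) : (p - 1) * k = (n - 1) * (k % p) := by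
  have hn0 : 0 < n := NeZero.pos n
  have hp0 := hp.pos
  have hm0 : 0 < m := by
    rcases Nat.eq_zero_or_pos m with h0 | h0
    · subst h0; omega
    · exact h0
  have hmn : m ∣ n := by rw [hn]; exact dvd_mul_left _ _
  rw [vv_iff hp0 hn hm0]
  have hmn' : m ≠ n := by
    intro h
    have := hp.two_le
    rw [hn] at h
    nlinarith
  -- the smallest prime
  have hn1 : n ≠ 1 := by
    intro h
    rw [h] at hmn
    exact hm1 (Nat.dvd_one.1 hmn)
  have hp0' : n.minFac.Prime := Nat.minFac_prime hn1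
  have hp5 : 5 ≤ p := h5 p (by rw [hn]; exact dvd_mul_right _ _) hp.one_lt.ne'
  have hm25 : 25 ≤ m := by omega
  have hq5 : 5 ≤ k / p := by
    rw [Nat.le_div_iff_mul_le hp0]
    refine le_trans ?_ hk
    by_cases hpe : p = n.minFac
    · rw [← hpe, hn, Nat.mul_div_cancel_left _ hp0]; omega
    · have h1 : n.minFac ∣ m := by
        have h2 : n.minFac ∣ p * m := by rw [← hn]; exact Nat.minFac_dvd n
        rcases hp0'.dvd_mul.1 h2 with h3 | h3
        · exact absurd ((Nat.prime_dvd_prime_iff_eq hp0' hp).1 h3).symm hpe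
        · exact h3
      obtain ⟨c, hc⟩ := h1
      have hc1 : c ≠ 1 := by
        intro h
        rw [h, mul_one] at hc
        exact hmp (by rw [hc]; exact hp0')
      have hcn : c ∣ n := (by rw [hc]; exact dvd_mul_left _ _ : c ∣ m).trans hmn
      have hc5 := h5 c hcn hc1
      have h4 : n / n.minFac = p * c := by
        have : n = n.minFac * (p * c) := by
          calc n = p * m := hn
            _ = p * (n.minFac * c) := by rw [← hc]
            _ = n.minFac * (p * c) := by ring
        exact Nat.div_eq_of_eq_mul_right hp0'.pos this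
      rw [h4, mul_comm]
      exact Nat.mul_le_mul_left p hc5
  refine dom (c := 5) hp hn (by omega) hodd (by norm_num) ?_ hq5 hk2 (by omega) ?_ (hC m hmn hmn')
  · intro e hem hne
    obtain ⟨f, hf⟩ := hem
    have hf1 : f ≠ 1 := by
      intro h; rw [h, mul_one] at hf; exact hne hf.symm
    have hfn : f ∣ n := (by rw [hf]; exact dvd_mul_left _ _ : f ∣ m).trans hmn
    have := h5 f hfn hf1
    rw [hf, mul_comm]
    exact Nat.mul_le_mul_left e this
  · have h1 := choose_four (m - m / 5)
    have h2 : 18 * (m - 1) * n < (m - m / 5) * (m - m / 5 - 1) * (m - m / 5 - 2) * (m - m / 5 - 3) := by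
      apply numA (by omega) (by omega)
      rw [hn]
      calc 5 * (p * m) = (5 * p) * m := by ring
        _ ≤ m * m := Nat.mul_le_mul_right m h5p
    rw [← h1] at h2
    have h3 : 18 * (m - 1) * n = 6 * (3 * (m - 1) * n) := by ring
    omega

lemma odd_div {n d : ℕ} (hodd : Odd n) (hd : d ∣ n) : Odd d := Odd.of_dvd_nat hodd hd

/-- necessity in the middle range, lower half -/
theorem nec_mid {n k : ℕ} [NeZero n] (hodd : Odd n) (hk1 : 1 ≤ k) (hkn : k + 2 ≤ n)
    (hC : Const n k 0) (h1 : n / n.minFac ≤ k) (h2 : k + 1 + n / n.minFac ≤ n)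
    (hk2 : 2 * k + 1 ≤ n) {p : ℕ} (hp : p.Prime) (hpn : p ∣ n) :
    (p - 1) * k = (n - 1) * (k % p) := by
  have hn0 : 0 < n := NeZero.pos n
  rw [const_iff_PP hk1 (by omega)] at hC
  have hn1 : n ≠ 1 := by omega
  have hp0' : n.minFac.Prime := Nat.minFac_prime hn1
  obtain ⟨m, hn⟩ := hpn
  have hm0 : 0 < m := by
    rcases Nat.eq_zero_or_pos m with h0 | h0
    · subst h0; omega
    · exact h0
  have hodd3 : ∀ d, d ∣ n → d ≠ 1 → 3 ≤ d := by
    intro d hd hd1
    have := odd_div hodd hd
    obtain ⟨c, rfl⟩ := this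
    omega
  have hpn : p ∣ n := by rw [hn]; exact dvd_mul_right _ _
  have hmn : m ∣ n := by rw [hn]; exact dvd_mul_left _ _
  have hp3 := hodd3 p hpn hp.one_lt.ne'
  by_cases hm1 : m = 1
  · -- n prime
    have hnp : n = p := by rw [hn, hm1, mul_one]
    rw [hnp, Nat.mod_eq_of_lt (by omega)]
  by_cases hmp : m.Prime
  · -- two prime factors
    rw [vv_iff hp.pos hn hm0]
    have hm3 := hodd3 m hmn hm1
    have hle1 : p ≤ n / n.minFac := by
      rw [Nat.le_div_iff_mul_le hp0'.pos]
      have : n.minFac ≤ m := Nat.minFac_le_of_dvd hmp.two_le hmn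
      calc p * n.minFac ≤ p * m := Nat.mul_le_mul_left p this
        _ = n := hn.symm
    have hle2 : m ≤ n / n.minFac := by
      rw [Nat.le_div_iff_mul_le hp0'.pos]
      have : n.minFac ≤ p := Nat.minFac_le_of_dvd hp.two_le hpn
      calc m * n.minFac ≤ m * p := Nat.mul_le_mul_left m this
        _ = n := by rw [hn, mul_comm]
    have hpne : p ≠ n := by
      intro h; rw [← h] at hn
      have := hmp.two_le
      nlinarith
    have hmne : m ≠ n := by
      intro h; rw [← h] at hn
      have := hp.two_le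
      nlinarith
    have c1 := hC m hmn hmne
    have c2 := hC p hpn hpne
    subst hn
    exact nec_two hp hmp hp3 hm3 (by omega) (by omega) (by omega) (by omega) c1 c2
  -- at least three prime factors
  have hcomp : ∀ p' m', p'.Prime → n = p' * m' → m' ≠ 1 ∧ ¬ m'.Prime := by
    intro p' m' hp' hn'
    constructor
    · intro h
      rw [h, mul_one] at hn'
      have : m ∣ p' := by rw [← hn']; exact hmn
      rcases (Nat.dvd_prime hp').1 this with h3 | h3
      · exact hm1 h3
      · exact hmp (by rw [h3]; exact hp')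
    · intro h
      have h3 : p ∣ p' * m' := by rw [← hn']; exact hpn
      rcases hp.dvd_mul.1 h3 with h4 | h4
      · have h5 := (Nat.prime_dvd_prime_iff_eq hp hp').1 h4
        have h6 : p * m = p * m' := by rw [← hn, hn', h5]
        have h7 := Nat.eq_of_mul_eq_mul_left hp.pos h6
        exact hmp (by rw [h7]; exact h)
      · have h5 := (Nat.prime_dvd_prime_iff_eq hp h).1 h4
        have h6 : p * m = p * p' := by rw [← hn, hn', h5, mul_comm]
        have h7 := Nat.eq_of_mul_eq_mul_left hp.pos h6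
        exact hmp (by rw [h7]; exact hp')
  by_cases h3n : 3 ∣ n
  · -- smallest prime 3
    have hmin : n.minFac = 3 := by
      have a1 : n.minFac ≤ 3 := Nat.minFac_le_of_dvd (by norm_num) h3n
      have a2 := hodd3 _ (Nat.minFac_dvd n) hp0'.one_lt.ne'
      omega
    rw [hmin] at h1 h2
    obtain ⟨m3, hm3⟩ := h3n
    obtain ⟨hm31, hm3p⟩ := hcomp 3 m3 Nat.prime_three hm3
    have hm3n : m3 ∣ n := by rw [hm3]; exact dvd_mul_left _ _
    have hm30 : 0 < m3 := by omega
    have hd3 : n / 3 = m3 := by rw [hm3]; exact Nat.mul_div_cancel_left _ (by norm_num)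
    rw [hd3] at h1 h2
    -- it suffices that n = 2k+1
    have hfin : 2 * k + 1 = n → (p - 1) * k = (n - 1) * (k % p) := by
      intro h
      obtain ⟨a, ha⟩ := odd_div hodd hpn
      obtain ⟨c, hc⟩ := odd_div hodd hmn
      have h3 : k = a + p * c := by
        have h4 : 2 * k + 1 = 2 * (a + p * c) + 1 := by
          rw [h, hn, hc]
          calc p * (2 * c + 1) = p + 2 * (p * c) := by ring
            _ = 2 * (a + p * c) + 1 := by omega
        omega
      have h5 : k % p = a := by
        rw [h3, Nat.add_mul_mod_self_left, Nat.mod_eq_of_lt (by omega)]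
      rw [h5, ← h, ha, Nat.add_sub_cancel, Nat.add_sub_cancel]; ring
    apply hfin
    have hb3 : (3 - 1) * k = (n - 1) * (k % 3) → 2 * k + 1 = n := by
      intro h
      have h4 : k % 3 < 3 := Nat.mod_lt _ (by norm_num)
      have h5 : k % 3 = 0 ∨ k % 3 = 1 ∨ k % 3 = 2 := by omega
      rcases h5 with h5 | h5 | h5
      · rw [h5] at h; omega
      · rw [h5] at h; omega
      · rw [h5] at h; omega
    have hm3n' : m3 ≠ n := by omega
    by_cases hm21 : 21 ≤ m3
    · apply hb3
      rw [vv_iff (by norm_num) hm3 hm30]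
      refine dom (c := 3) Nat.prime_three hm3 (by omega) hodd (by norm_num) ?_ ?_ hk2 (by omega) ?_
        (hC m3 hm3n hm3n')
      · intro e hem hne
        obtain ⟨f, hf⟩ := hem
        have hf1 : f ≠ 1 := by
          intro h; rw [h, mul_one] at hf; exact hne hf.symm
        have hfn : f ∣ n := (by rw [hf]; exact dvd_mul_left _ _ : f ∣ m3).trans hm3n
        have := hodd3 f hfn hf1
        rw [hf, mul_comm]
        exact Nat.mul_le_mul_left e this
      · rw [Nat.le_div_iff_mul_le (by norm_num)]; omega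
      · have e1 := choose_four (m3 - m3 / 3)
        have e2 : 18 * (m3 - 1) * (3 * m3) <
            (m3 - m3 / 3) * (m3 - m3 / 3 - 1) * (m3 - m3 / 3 - 2) * (m3 - m3 / 3 - 3) :=
          numB (by omega) (by omega) (by omega)
        rw [← e1, ← hm3] at e2
        have e3 : 18 * (m3 - 1) * n = 6 * (3 * (m3 - 1) * n) := by ring
        omega
    · -- m3 = 9 or 15
      have hm3odd := odd_div hodd hm3n
      have hcase : m3 = 9 ∨ m3 = 15 := by
        have hlt : m3 < 21 := by omega
        obtain ⟨c, hc⟩ := hm3odd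
        have hc10 : c < 10 := by omega
        interval_cases c
        · exact absurd hc (by omega)
        · exact absurd (by rw [hc]; norm_num : m3.Prime) hm3p
        · exact absurd (by rw [hc]; norm_num : m3.Prime) hm3p
        · exact absurd (by rw [hc]; norm_num : m3.Prime) hm3p
        · left; omega
        · exact absurd (by rw [hc]; norm_num : m3.Prime) hm3p
        · exact absurd (by rw [hc]; norm_num : m3.Prime) hm3p
        · right; omega
        · exact absurd (by rw [hc]; norm_num : m3.Prime) hm3p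
        · exact absurd (by rw [hc]; norm_num : m3.Prime) hm3p
      by_contra hne
      rcases hcase with h9 | h15
      · have e1 := hC m3 hm3n hm3n'
        have e2 : n = 27 := by omega
        rw [e2, h9] at e1
        exact fin27 k (by rw [Finset.mem_Icc]; omega) e1
      · have e1 := hC m3 hm3n hm3n'
        have e2 : n = 45 := by omega
        rw [e2, h15] at e1
        exact fin45 k (by rw [Finset.mem_Icc]; omega) e1
  · -- smallest prime at least 5
    have h5 : ∀ d, d ∣ n → d ≠ 1 → 5 ≤ d := by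
      intro d hd hd1
      have a1 := hodd3 d hd hd1
      obtain ⟨c, hc⟩ := odd_div hodd hd
      rcases Nat.lt_or_ge d 5 with h3 | h3
      · exfalso
        have : d = 3 := by omega
        exact h3n (by rw [← this]; exact hd)
      · exact h3
    by_cases h5p : 5 * p ≤ m
    · exact dom5 hodd hp hn hm1 hmp h5 h5p hC h1 hk2
    · apply bal_of_others hk1 hkn hp hn
      intro p' hp' hpm'
      obtain ⟨f, hf⟩ := hpm'
      have hf1 : f ≠ 1 := by
        intro h; rw [h, mul_one] at hf; exact hmp (by rw [hf]; exact hp')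
      have hfn : f ∣ n := (by rw [hf]; exact dvd_mul_left _ _ : f ∣ m).trans hmn
      have hf5 := h5 f hfn hf1
      have hn' : n = p' * (p * f) := by rw [hn, hf]; ring
      obtain ⟨a1, a2⟩ := hcomp p' (p * f) hp' hn'
      refine dom5 hodd hp' hn' a1 a2 h5 ?_ hC h1 hk2
      have a3 : p' * 5 ≤ m := by rw [hf]; exact Nat.mul_le_mul_left p' hf5
      have a4 : p * 5 ≤ p * f := Nat.mul_le_mul_left p hf5
      omega

/-- **The criterion for sum `0`** -/
theorem x0_iff {n k : ℕ} [NeZero n] (hodd : Odd n) (hk1 : 1 ≤ k) (hk2 : k + 2 ≤ n) :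
    Const n k 0 ↔
      ∀ p, p.Prime → p ∣ n → k < p ∨ n - 1 - k < p ∨ (p - 1) * k = (n - 1) * (k % p) := by
  constructor
  · intro hC p hp hpn
    have hCc := const0_compl hodd hk1 hk2 hC
    have hn1 : n ≠ 1 := by omega
    have hp0' : n.minFac.Prime := Nat.minFac_prime hn1
    have hle : n.minFac ≤ p := Nat.minFac_le_of_dvd hp.two_le hpn
    by_cases h1 : k < n / n.minFac
    · left
      have := nec_small hk1 (by omega) hp0' (Nat.minFac_dvd n) h1 ((const_iff_PP hk1 (by omega)).1 hC)
      omega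
    · by_cases h2 : n - 1 - k < n / n.minFac
      · right; left
        have := nec_small (k := n - 1 - k) (by omega) (by omega) hp0' (Nat.minFac_dvd n) h2
          ((const_iff_PP (by omega) (by omega)).1 hCc)
        omega
      · right; right
        rcases Nat.lt_or_ge n (2 * k + 1) with h3 | h3
        · have h4 := nec_mid hodd (by omega) (by omega) hCc (by omega) (by omega) (by omega) hp hpn
          have h5 := bal_compl (k := n - 1 - k) (by omega) hp.pos hpn h4
          rwa [show n - 1 - (n - 1 - k) = k by omega] at h5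
        · exact nec_mid hodd hk1 hk2 hC (by omega) (by omega) h3 hp hpn
  · intro h
    exact suff hodd hk1 hk2 h

end Pool.Agent.H58.SD
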